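import Pool.Agent.W_MP_cfb63a_co.Step4

/-!
# Counting the cells
-/

set_option autoImplicit false

open Set

namespace Pool.Agent.W_MP_cfb63a_co

variable {κ : Bool} {n M : ℕ} {ι : Type} {L : Bool → ℕ → ℕ → ι}

theorem cells_subset : ∀ (m : ℕ) (D : Set (Fin m → ℝ)) (lab : (Fin m → ℝ) → Set ι),
    ∀ c ∈ cells κ m D lab, c ⊆ D
  | 0, D, lab, c, hc => by
    rw [cells] at hc; rw [mem_singleton_iff.1 hc]
  | 1, D, lab, c, hc => by
    rw [cells] at hc; rw [mem_singleton_iff.1 hc]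
  | (m + 2), D, lab, c, hc => by
    obtain ⟨p, _, c', _, rfl⟩ := hc
    intro y hy
    exact (connectedComponentIn_subset _ _ hy.1).1

theorem cells_nonempty : ∀ (m : ℕ) (D : Set (Fin m → ℝ)) (lab : (Fin m → ℝ) → Set ι),
    D.Nonempty → ∀ c ∈ cells κ m D lab, c.Nonempty
  | 0, D, lab, hD, c, hc => by
    rw [cells] at hc; rw [mem_singleton_iff.1 hc]; exact hD
  | 1, D, lab, hD, c, hc => by
    rw [cells] at hc; rw [mem_singleton_iff.1 hc]; exact hD
  | (m + 2), D, lab, hD, c, hc => by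
    obtain ⟨p, hp, c', hc', rfl⟩ := hc
    have hne : (proj '' connectedComponentIn (D \ walls κ D lab) p).Nonempty :=
      ⟨proj p, p, mem_connectedComponentIn hp, rfl⟩
    obtain ⟨x, hx⟩ := cells_nonempty (m + 1) _ _ hne c' hc'
    obtain ⟨y, hy, hyx⟩ := cells_subset (m + 1) _ _ c' hc' hx
    exact ⟨y, hy, by rw [hyx]; exact hx⟩

/-! ### Dimension two -/

theorem not_hitAny_two (n : ℕ) (s : ℝ) (w : ℝ) (x : Fin 2 → ℝ) : ¬ HitAny n s 2 w x := by
  rintro ⟨c, i, _, h⟩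
  have := hit_c _ _ _ _ _ _ _ h
  omega

theorem Inv.eq_G_two {D : Set (Fin 2 → ℝ)} {lab : (Fin 2 → ℝ) → Set ι} {φ ψ : ℝ → ℝ}
    {P Q : ℝ → Set ι} (h : Inv n L 2 D lab φ ψ P Q) : D = G n 2 φ ψ := by
  apply Subset.antisymm h.sub
  intro y hy
  refine h.cen y hy.1.1 hy.1.2 hy.2.1.1 hy.2.1.2 fun k hk => ?_
  rw [co, dif_neg (by omega)]

theorem Inv.mem_two {D : Set (Fin 2 → ℝ)} {lab : (Fin 2 → ℝ) → Set ι} {φ ψ : ℝ → ℝ}
    {P Q : ℝ → Set ι} (h : Inv n L 2 D lab φ ψ P Q) (x : Fin 1 → ℝ) (t : ℝ) :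
    pt x t ∈ D ↔ (0 < φ (co 0 x) ∧ φ (co 0 x) < 1) ∧ (0 < ψ t ∧ ψ t < 1) := by
  rw [h.eq_G_two]
  have e0 : co 0 (pt x t) = co 0 x := co_pt 0 (by omega) x t
  have e1 : co 1 (pt x t) = t := co_pt_last x t
  simp only [G, mem_ofPred_eq, e0, e1]
  constructor
  · rintro ⟨h1, h2, _⟩; exact ⟨h1, h2⟩
  · rintro ⟨h1, h2⟩
    exact ⟨h1, h2, not_hitAny_two _ _ _ _, not_hitAny_two _ _ _ _⟩

theorem Inv.regular_two {D : Set (Fin 2 → ℝ)} {lab : (Fin 2 → ℝ) → Set ι} {φ ψ : ℝ → ℝ}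
    {P Q : ℝ → Set ι} (h : Inv n L 2 D lab φ ψ P Q) {x : Fin 1 → ℝ}
    (hx : 0 < φ (co 0 x) ∧ φ (co 0 x) < 1) {β : ℝ} (hβ : ψ β = 1 ∨ ψ β = 0) :
    Regular κ D lab (pt x β) := by
  have hsm := h.affψ.strictMono
  have hDo := h.isOpen
  obtain ⟨b, hb⟩ := h.affψ.surj (1 / 2)
  have hVo : IsOpen {x' : Fin 1 → ℝ | 0 < φ (co 0 x') ∧ φ (co 0 x') < 1} := by
    have h0 : Continuous fun x : Fin 1 → ℝ => φ (co 0 x) :=
      h.affφ.continuous.comp (continuous_co 0)
    exact (isOpen_lt continuous_const h0).inter (isOpen_lt h0 continuous_const)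
  have hJo : IsOpen {t : ℝ | |ψ t - ψ β| < 1} := by
    have : Continuous fun t : ℝ => |ψ t - ψ β| :=
      (h.affψ.continuous.sub continuous_const).abs
    exact isOpen_lt this continuous_const
  have hcl : ∀ x' : Fin 1 → ℝ, (0 < φ (co 0 x') ∧ φ (co 0 x') < 1) → ∀ t : ℝ,
      (pt x' t ∈ closure D ↔ 0 ≤ ψ t ∧ ψ t ≤ 1) := by
    intro x' hx' t
    constructor
    · intro hc
      have hsub : closure D ⊆ {y | 0 ≤ ψ (co 1 y) ∧ ψ (co 1 y) ≤ 1} := by
        apply closure_minimal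
        · intro y hy
          have := h.sub hy
          exact ⟨this.2.1.1.le, this.2.1.2.le⟩
        · have h1 : Continuous fun x : Fin 2 → ℝ => ψ (co 1 x) :=
            h.affψ.continuous.comp (continuous_co 1)
          exact (isClosed_le continuous_const h1).inter (isClosed_le h1 continuous_const)
      have h2 := hsub hc
      have e1 : co 1 (pt x' t) = t := co_pt_last x' t
      simp only [mem_ofPred_eq, e1] at h2
      exact h2
    · rintro ⟨h0, h1⟩
      obtain ⟨b0, hb0⟩ := h.affψ.surj 0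
      obtain ⟨b1, hb1⟩ := h.affψ.surj 1
      have hlt : b0 < b1 := hsm.lt_iff_lt.1 (by rw [hb0, hb1]; norm_num)
      have ht : t ∈ closure (Ioo b0 b1) := by
        rw [closure_Ioo hlt.ne]
        exact ⟨hsm.le_iff_le.1 (by rw [hb0]; exact h0), hsm.le_iff_le.1 (by rw [hb1]; exact h1)⟩
      refine map_mem_closure (continuous_vert x') ht (fun s hs => ?_)
      rw [h.mem_two]
      refine ⟨hx', ?_, ?_⟩
      · rw [← hb0]; exact hsm hs.1
      · rw [← hb1]; exact hsm hs.2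
  refine ⟨{x' : Fin 1 → ℝ | 0 < φ (co 0 x') ∧ φ (co 0 x') < 1}, {t : ℝ | |ψ t - ψ β| < 1},
    fun _ => β, hVo, hJo, ?_, ?_, contDiffOn_const, ?_, ?_, ?_⟩
  · rw [proj_pt]; exact hx
  · rw [pt_last]; simp
  · intro x' _; simp
  · intro x' hx' t ht
    rw [mem_frontier_of_isOpen hDo, hcl x' hx', h.mem_two]
    simp only [mem_ofPred_eq] at ht hx'
    rw [abs_lt] at ht
    constructor
    · rintro ⟨⟨h0, h1⟩, hn⟩
      apply hsm.injective
      rcases hβ with hβ | hβ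
      · rw [hβ] at ht ⊢
        by_contra hne
        exact hn ⟨hx', by linarith, lt_of_le_of_ne h1 hne⟩
      · rw [hβ] at ht ⊢
        by_contra hne
        exact hn ⟨hx', lt_of_le_of_ne h0 (Ne.symm hne), by linarith⟩
    · rintro rfl
      rcases hβ with hβ | hβ
      · rw [hβ]; norm_num
      · rw [hβ]; norm_num
  · intro _ x' hx'
    have hc1 : pt x' β ∈ closure D := (hcl x' hx' β).2 (by
      rcases hβ with hβ | hβ <;> rw [hβ] <;> norm_num)
    have hc2 : pt x β ∈ closure D := (hcl x hx β).2 (by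
      rcases hβ with hβ | hβ <;> rw [hβ] <;> norm_num)
    ext γ
    have key : ∀ z : Fin 1 → ℝ, pt z β ∈ closure D →
        (γ ∈ lab (pt z β) ↔ γ ∈ P (co 0 z) ∨ γ ∈ Q β) := by
      intro z hz
      have e0 : co 0 (pt z β) = co 0 z := co_pt 0 (by omega) z β
      have e1 : co 1 (pt z β) = β := co_pt_last z β
      rw [h.hlab _ hz, e0, e1]
      constructor
      · rintro (h1 | h1 | ⟨c, i, hi, _, h1⟩ | ⟨c, i, hi, _, h1⟩)
        · exact Or.inl h1
        · exact Or.inr h1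
        · exact absurd ⟨c, i, hi, h1⟩ (not_hitAny_two _ _ _ _)
        · exact absurd ⟨c, i, hi, h1⟩ (not_hitAny_two _ _ _ _)
      · rintro (h1 | h1)
        · exact Or.inl h1
        · exact Or.inr (Or.inl h1)
    rw [key x' hc1, key x hc2, h.Pc _ _ hx'.1 hx'.2 hx.1 hx.2]

theorem Inv.no_walls_two {D : Set (Fin 2 → ℝ)} {lab : (Fin 2 → ℝ) → Set ι} {φ ψ : ℝ → ℝ}
    {P Q : ℝ → Set ι} (h : Inv n L 2 D lab φ ψ P Q) {y : Fin 2 → ℝ} (hy : y ∈ D) :
    y ∉ walls κ D lab := by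
  have hsm := h.affψ.strictMono
  obtain ⟨b0, hb0⟩ := h.affψ.surj 0
  obtain ⟨b1, hb1⟩ := h.affψ.surj 1
  have hy' := hy
  rw [← pt_proj y, h.mem_two] at hy'
  obtain ⟨hx, ht0, ht1⟩ := hy'
  rintro ⟨_, ⟨β, hβ, hn⟩ | ⟨α, hα, hn⟩⟩
  · apply hn
    apply h.regular_two hx
    left
    have h1 : ¬ ψ β < 1 := by
      intro hlt
      exact hβ.2.2 ((h.mem_two _ _).2 ⟨hx, ht0.trans (hsm hβ.1), hlt⟩)
    push Not at h1
    rcases h1.lt_or_eq with hlt | heq
    · exfalso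
      have hb : b1 < β := hsm.lt_iff_lt.1 (by rw [hb1]; exact hlt)
      have hb' : y (Fin.last 1) ≤ b1 := hsm.le_iff_le.1 (by rw [hb1]; exact ht1.le)
      have := (h.mem_two _ _).1 (hβ.2.1 b1 ⟨hb', hb⟩)
      rw [hb1] at this
      exact lt_irrefl _ this.2.2
    · exact heq.symm
  · apply hn
    apply h.regular_two hx
    right
    have h1 : ¬ 0 < ψ α := by
      intro hlt
      exact hα.2.2 ((h.mem_two _ _).2 ⟨hx, hlt, (hsm hα.1).trans ht1⟩)
    push Not at h1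
    rcases h1.lt_or_eq with hlt | heq
    · exfalso
      have hb : α < b0 := hsm.lt_iff_lt.1 (by rw [hb0]; exact hlt)
      have hb' : b0 ≤ y (Fin.last 1) := hsm.le_iff_le.1 (by rw [hb0]; exact ht0.le)
      have := (h.mem_two _ _).1 (hα.2.1 b0 ⟨hb, hb'⟩)
      rw [hb0] at this
      exact lt_irrefl _ this.2.1
    · exact heq

/-! ### The induction -/

/-- a central point with given first two coordinates -/
def cpt (m : ℕ) (a b : ℝ) : Fin m → ℝ := fun k => if k.1 = 0 then a else if k.1 = 1 then b else 0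

theorem co_cpt_zero {m : ℕ} (hm : 2 ≤ m) (a b : ℝ) : co 0 (cpt m a b) = a := by
  rw [co, dif_pos (by omega)]; simp [cpt]

theorem co_cpt_one {m : ℕ} (hm : 2 ≤ m) (a b : ℝ) : co 1 (cpt m a b) = b := by
  rw [co, dif_pos (by omega)]; simp [cpt]

theorem co_cpt {m : ℕ} (a b : ℝ) (k : ℕ) (hk : 2 ≤ k) : co k (cpt m a b) = 0 := by
  unfold co
  by_cases h : k < m
  · rw [dif_pos h, cpt, if_neg (by simp; omega), if_neg (by simp; omega)]
  · rw [dif_neg h]

theorem Inv.exists_cen {m : ℕ} {D : Set (Fin (m + 1) → ℝ)} {lab : (Fin (m + 1) → ℝ) → Set ι}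
    {φ ψ : ℝ → ℝ} {P Q : ℝ → Set ι} (h : Inv n L (m + 1) D lab φ ψ P Q) (hm : 2 ≤ m) {i j : ℕ}
    (hi : i < n) (hj : j < n) :
    ∃ p, p ∈ Cen n m i j D φ ψ ∧ ∀ k, 2 ≤ k → co k p = 0 := by
  have hn : 0 < n := Nat.zero_lt_of_lt hi
  obtain ⟨a, ha⟩ := (h.affφ.next hn i).surj (1 / 2)
  obtain ⟨b, hb⟩ := (h.affψ.next hn j).surj (1 / 2)
  have ha' : nx n i φ a = 1 / 2 := ha
  have hb' : nx n j ψ b = 1 / 2 := hb
  have s1 := strip_of_next (φ := φ) (a := a) hi (by rw [ha']; norm_num) (by rw [ha']; norm_num)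
  have s2 := strip_of_next (φ := ψ) (a := b) hj (by rw [hb']; norm_num) (by rw [hb']; norm_num)
  refine ⟨cpt (m + 1) a b, ⟨?_, ?_, ?_⟩, fun k hk => co_cpt a b k hk⟩
  · apply central_sub_G
    have e0 : co 0 (proj (cpt (m + 1) a b)) = a := by
      rw [co_proj 0 (by omega), co_cpt_zero (by omega)]
    have e1 : co 1 (proj (cpt (m + 1) a b)) = b := by
      rw [co_proj 1 (by omega), co_cpt_one (by omega)]
    refine ⟨?_, ?_, ?_, ?_, ?_⟩
    · rw [e0, ha']; norm_num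
    · rw [e0, ha']; norm_num
    · rw [e1, hb']; norm_num
    · rw [e1, hb']; norm_num
    · intro k hk
      by_cases hkm : k < m
      · rw [co_proj k hkm]; exact co_cpt a b k hk
      · rw [co, dif_neg hkm]
  · have : cpt (m + 1) a b (Fin.last m) = 0 := by
      rw [cpt, if_neg (by simp; omega), if_neg (by simp; omega)]
    rw [this]
    exact zero_mem_In hi hj
  · apply h.cen
    · rw [co_cpt_zero (by omega)]; exact s1.1
    · rw [co_cpt_zero (by omega)]; exact s1.2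
    · rw [co_cpt_one (by omega)]; exact s2.1
    · rw [co_cpt_one (by omega)]; exact s2.2
    · exact fun k hk => co_cpt a b k hk

theorem digit_unique {φ : ℝ → ℝ} {a : ℝ} {i i' : ℕ} (h0 : 0 < nx n i φ a) (h1 : nx n i φ a < 1)
    (h0' : 0 < nx n i' φ a) (h1' : nx n i' φ a < 1) : i = i' := by
  simp only [nx] at h0 h1 h0' h1'
  have e1 : (i : ℝ) < i' + 1 := by linarith
  have e2 : (i' : ℝ) < i + 1 := by linarith
  have e1' : i < i' + 1 := by exact_mod_cast e1
  have e2' : i' < i + 1 := by exact_mod_cast e2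
  omega

open Classical in
theorem count (hL : Inj n M L) (r : ℕ) : ∀ {D : Set (Fin (r + 2) → ℝ)}
    {lab : (Fin (r + 2) → ℝ) → Set ι} {φ ψ : ℝ → ℝ} {P Q : ℝ → Set ι},
    Inv n L (r + 2) D lab φ ψ P Q → r + 2 ≤ M →
    ∃ F : Finset (Set (Fin (r + 2) → ℝ)), (F : Set (Set (Fin (r + 2) → ℝ))) ⊆ cells κ (r + 2) D lab ∧
      F.card = (n * n) ^ r := by
  induction r with
  | zero =>
    intro D lab φ ψ P Q h _
    obtain ⟨a, ha⟩ := h.affφ.surj (1 / 2)
    obtain ⟨b, hb⟩ := h.affψ.surj (1 / 2)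
    have hp : cpt 2 a b ∈ D := by
      apply h.cen
      · rw [co_cpt_zero le_rfl, ha]; norm_num
      · rw [co_cpt_zero le_rfl, ha]; norm_num
      · rw [co_cpt_one le_rfl, hb]; norm_num
      · rw [co_cpt_one le_rfl, hb]; norm_num
      · exact fun k hk => co_cpt a b k hk
    refine ⟨{{y | y ∈ connectedComponentIn (D \ walls κ D lab) (cpt 2 a b) ∧
      proj y ∈ proj '' connectedComponentIn (D \ walls κ D lab) (cpt 2 a b)}}, ?_, by simp⟩
    rw [Finset.coe_singleton, singleton_subset_iff]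
    exact ⟨cpt 2 a b, ⟨hp, h.no_walls_two hp⟩, _, rfl, rfl⟩
  | succ r ih =>
    intro D lab φ ψ P Q h hM
    have hm : 2 ≤ r + 2 := by omega
    have hex : ∀ z : Fin n × Fin n, ∃ p, p ∈ Cen n (r + 2) z.1 z.2 D φ ψ ∧
        ∃ F : Finset (Set (Fin (r + 2) → ℝ)), (F : Set (Set (Fin (r + 2) → ℝ))) ⊆
          cells κ (r + 2) (proj '' scell κ D lab p) (projLab (scell κ D lab p) lab) ∧
        F.card = (n * n) ^ r := by
      rintro ⟨i, j⟩
      obtain ⟨p, hp, hpc⟩ := Inv.exists_cen (m := r + 2) h hm i.2 j.2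
      exact ⟨p, hp, ih (h.next hL hM hm i.2 j.2 hp hpc) (by omega)⟩
    choose p hp F hF hFc using hex
    let lift : Fin n × Fin n → Set (Fin (r + 2) → ℝ) → Set (Fin (r + 3) → ℝ) :=
      fun z c' => {y | y ∈ scell κ D lab (p z) ∧ proj y ∈ c'}
    have hsubF : ∀ z, ∀ c' ∈ F z, c' ⊆ proj '' scell κ D lab (p z) := fun z c' hc' =>
      cells_subset _ _ _ c' (hF z hc')
    have hproj : ∀ z, ∀ c' ∈ F z, proj '' lift z c' = c' := by
      intro z c' hc'
      ext x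
      constructor
      · rintro ⟨y, hy, rfl⟩; exact hy.2
      · intro hx
        obtain ⟨y, hy, rfl⟩ := hsubF z c' hc' hx
        exact ⟨y, ⟨hy, hx⟩, rfl⟩
    have hinj : ∀ z, Set.InjOn (lift z) (F z) := by
      intro z c₁ h₁ c₂ h₂ heq
      rw [← hproj z c₁ h₁, ← hproj z c₂ h₂, heq]
    refine ⟨Finset.univ.biUnion fun z => (F z).image (lift z), ?_, ?_⟩
    · intro c hc
      rw [Finset.mem_coe, Finset.mem_biUnion] at hc
      obtain ⟨z, _, hc⟩ := hc
      rw [Finset.mem_image] at hc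
      obtain ⟨c', hc', rfl⟩ := hc
      have hpz := Inv.cen_sub (κ := κ) (m := r + 2) h hm z.1.2 z.2.2 (hp z)
      exact ⟨p z, hpz, c', hF z hc', rfl⟩
    · rw [Finset.card_biUnion]
      · have : ∀ z ∈ (Finset.univ : Finset (Fin n × Fin n)),
            ((F z).image (lift z)).card = (n * n) ^ r := by
          intro z _
          rw [Finset.card_image_of_injOn (hinj z), hFc]
        rw [Finset.sum_congr rfl this, Finset.sum_const, Finset.card_univ, Fintype.card_prod,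
          Fintype.card_fin, smul_eq_mul, pow_succ]
        ring
      · intro z _ z' _ hne
        rw [Function.onFun, Finset.disjoint_left]
        intro c hc hc'
        rw [Finset.mem_image] at hc hc'
        obtain ⟨c₁, h₁, rfl⟩ := hc
        obtain ⟨c₂, h₂, heq⟩ := hc'
        apply hne
        have hpz := Inv.cen_sub (κ := κ) (m := r + 2) h hm z.1.2 z.2.2 (hp z)
        have hne1 : (proj '' scell κ D lab (p z)).Nonempty :=
          ⟨proj (p z), p z, mem_connectedComponentIn hpz, rfl⟩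
        obtain ⟨x, hx⟩ := cells_nonempty _ _ _ hne1 c₁ (hF z h₁)
        obtain ⟨y, hy, hyx⟩ := hsubF z c₁ h₁ hx
        have hy1 : y ∈ lift z c₁ := ⟨hy, by rw [hyx]; exact hx⟩
        have hy2 : y ∈ scell κ D lab (p z') := by
          rw [← heq] at hy1; exact hy1.1
        have g1 := (Inv.sub_cen (m := r + 2) h hm z.1.2 z.2.2 (hp z) hy).1
        have g2 := (Inv.sub_cen (m := r + 2) h hm z'.1.2 z'.2.2 (hp z') hy2).1
        have e1 := digit_unique g1.1.1 g1.1.2 g2.1.1 g2.1.2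
        have e2 := digit_unique g1.2.1.1 g1.2.1.2 g2.2.1.1 g2.2.1.2
        exact Prod.ext (Fin.ext e1) (Fin.ext e2)

end Pool.Agent.W_MP_cfb63a_co
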