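import Mathlib

/-!
# Vertical decomposition of an arrangement of surface patches

We follow the problem file.  Points of `ℝ^(m+1)` are written `pt x t` with `x ∈ ℝ^m` and the last
coordinate `t`; the last coordinate is the vertical direction.

A region is an open set `D ⊆ ℝ^m` together with a function `lab` which gives for each point the
set of (indices of) patches that pass through this point (in the first step), respectively that
touch the closure of the current subcell above this point (in later steps).

The faces of `D` of codimension one are the places where the frontier of `D` is locally a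
continuously differentiable hypersurface; all other points of the frontier belong to faces of
codimension at least two. There are two possible conventions, and everything is done for both of
them: if `κ = false`, then only the shape of `D` counts, as just said; if `κ = true`, then in
addition the labels have to be constant along a face (so that for example two patches which
continue each other smoothly give different faces).
-/

set_option autoImplicit false

open Set

namespace Pool.Agent.W_MP_cfb63a_co

/-- The point `(x, t)` of `ℝ^(m+1)`, for `x ∈ ℝ^m` and the last coordinate `t`. -/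
def pt {m : ℕ} (x : Fin m → ℝ) (t : ℝ) : Fin (m + 1) → ℝ := Fin.snoc (α := fun _ => ℝ) x t

/-- The projection `ℝ^(m+1) → ℝ^m` along the last coordinate. -/
def proj {m : ℕ} (y : Fin (m + 1) → ℝ) : Fin m → ℝ := fun i => y i.castSucc

/-- Moving upwards from `(x, t)` inside `D` one leaves `D` for the first time at `(x, β)`. -/
def IsTop {m : ℕ} (D : Set (Fin (m + 1) → ℝ)) (x : Fin m → ℝ) (t β : ℝ) : Prop :=
  t < β ∧ (∀ s ∈ Ico t β, pt x s ∈ D) ∧ pt x β ∉ D

/-- Moving downwards from `(x, t)` inside `D` one leaves `D` for the first time at `(x, α)`. -/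
def IsBot {m : ℕ} (D : Set (Fin (m + 1) → ℝ)) (x : Fin m → ℝ) (t α : ℝ) : Prop :=
  α < t ∧ (∀ s ∈ Ioc α t, pt x s ∈ D) ∧ pt x α ∉ D

/-- The point `q` lies in a codimension one face of the region `D` with labels `lab`, and the
tangent hyperplane at `q` does not contain the vertical direction: near `q` the frontier of `D`
is the graph of a continuously differentiable function `f` over an open subset of `ℝ^m`, and (for
the convention `κ = true`) the label is constant along this graph. -/
def Regular {m : ℕ} {ι : Type} (κ : Bool) (D : Set (Fin (m + 1) → ℝ))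
    (lab : (Fin (m + 1) → ℝ) → Set ι) (q : Fin (m + 1) → ℝ) : Prop :=
  ∃ (V : Set (Fin m → ℝ)) (J : Set ℝ) (f : (Fin m → ℝ) → ℝ),
    IsOpen V ∧ IsOpen J ∧ proj q ∈ V ∧ q (Fin.last m) ∈ J ∧ ContDiffOn ℝ 1 f V ∧
    (∀ x ∈ V, f x ∈ J) ∧
    (∀ x ∈ V, ∀ t ∈ J, (pt x t ∈ frontier D ↔ t = f x)) ∧
    (κ = true → ∀ x ∈ V, lab (pt x (f x)) = lab q)

/-- The union of the vertical walls in the region `D`: all points of `D` from which one reaches,
going up or going down inside `D`, a frontier point that lies in a face of codimension at least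
two or at which the tangent hyperplane contains the vertical direction. -/
def walls {m : ℕ} {ι : Type} (κ : Bool) (D : Set (Fin (m + 1) → ℝ))
    (lab : (Fin (m + 1) → ℝ) → Set ι) : Set (Fin (m + 1) → ℝ) :=
  {p | p ∈ D ∧
    ((∃ β, IsTop D (proj p) (p (Fin.last m)) β ∧ ¬ Regular κ D lab (pt (proj p) β)) ∨
     (∃ α, IsBot D (proj p) (p (Fin.last m)) α ∧ ¬ Regular κ D lab (pt (proj p) α)))}

/-- The labels of the projection of a subcell `τ`: the patches which touch the closure of `τ`
above `x`. -/
def projLab {m : ℕ} {ι : Type} (τ : Set (Fin (m + 1) → ℝ))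
    (lab : (Fin (m + 1) → ℝ) → Set ι) : (Fin m → ℝ) → Set ι :=
  fun x => {γ | ∃ t, pt x t ∈ closure τ ∧ γ ∈ lab (pt x t)}

/-- The cells of the vertical decomposition of the region `D ⊆ ℝ^m` with labels `lab`. In
dimension at least two, `D` is cut by the vertical walls into subcells `τ` (the connected
components), the projection of each `τ` is decomposed recursively, and the resulting pieces are
lifted to `τ`. -/
def cells {ι : Type} (κ : Bool) : (m : ℕ) → (Set (Fin m → ℝ)) → ((Fin m → ℝ) → Set ι) →
    Set (Set (Fin m → ℝ))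
  | 0, D, _ => {D}
  | 1, D, _ => {D}
  | (m + 2), D, lab =>
    {c | ∃ p ∈ D \ walls κ D lab,
      ∃ c' ∈ cells κ (m + 1) (proj '' connectedComponentIn (D \ walls κ D lab) p)
        (projLab (connectedComponentIn (D \ walls κ D lab) p) lab),
        c = {y | y ∈ connectedComponentIn (D \ walls κ D lab) p ∧ proj y ∈ c'}}

/-- The cells of the vertical decomposition `𝒜^∥(Γ)` of the arrangement of the patches `Γ k`:
the `d`-dimensional cells of the arrangement are the connected components of the complement of
the union of the patches, and each of them is decomposed. -/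
def VD {d : ℕ} {ι : Type} (κ : Bool) (Γ : ι → Set (Fin d → ℝ)) : Set (Set (Fin d → ℝ)) :=
  {c | ∃ p, (∀ k, p ∉ Γ k) ∧
    c ∈ cells κ d (connectedComponentIn {q | ∀ k, q ∉ Γ k} p) (fun q => {k | q ∈ Γ k})}

/-- A surface patch of description complexity at most `b` in `ℝ^d`: a part of the zero set of a
nonzero polynomial of degree at most `b`, cut out by at most `b` polynomial inequalities of
degree at most `b`. -/
def IsPatch {d : ℕ} (b : ℕ) (S : Set (Fin d → ℝ)) : Prop :=
  ∃ (P : MvPolynomial (Fin d) ℝ) (Q : Fin b → MvPolynomial (Fin d) ℝ),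
    P ≠ 0 ∧ P.totalDegree ≤ b ∧ (∀ i, (Q i).totalDegree ≤ b) ∧
    S = {x | MvPolynomial.eval x P = 0 ∧ ∀ i, 0 ≤ MvPolynomial.eval x (Q i)}

/-- `V_d(N)`: the largest number of cells of the vertical decomposition of the arrangement of `N`
distinct patches of description complexity at most `b` in `ℝ^d`. -/
noncomputable def maxCells (κ : Bool) (b d N : ℕ) : ℕ∞ :=
  ⨆ Γ : {Γ : Fin N → Set (Fin d → ℝ) // Function.Injective Γ ∧ ∀ k, IsPatch b (Γ k)},
    (VD κ Γ.1).encard

/-! ### Basic lemmas -/

section Basic

variable {m : ℕ}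

@[simp] theorem pt_last (x : Fin m → ℝ) (t : ℝ) : pt x t (Fin.last m) = t := by
  simp [pt]

@[simp] theorem pt_castSucc (x : Fin m → ℝ) (t : ℝ) (i : Fin m) : pt x t i.castSucc = x i := by
  simp [pt]

@[simp] theorem proj_pt (x : Fin m → ℝ) (t : ℝ) : proj (pt x t) = x := by
  funext i; simp [proj]

@[simp] theorem pt_proj (y : Fin (m + 1) → ℝ) : pt (proj y) (y (Fin.last m)) = y := by
  funext i
  refine Fin.lastCases ?_ (fun j => ?_) i
  · simp
  · simp [proj]

theorem continuous_proj : Continuous (proj : (Fin (m + 1) → ℝ) → (Fin m → ℝ)) :=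
  continuous_pi fun _ => continuous_apply _

theorem continuous_pt : Continuous (fun z : (Fin m → ℝ) × ℝ => pt z.1 z.2) := by
  refine continuous_pi fun i => ?_
  refine Fin.lastCases ?_ (fun j => ?_) i
  · simpa using continuous_snd
  · simp only [pt_castSucc]
    exact (continuous_apply j).comp continuous_fst

theorem pt_inj {x x' : Fin m → ℝ} {t t' : ℝ} (h : pt x t = pt x' t') : x = x' ∧ t = t' := by
  have h1 := congrArg proj h
  have h2 := congrFun h (Fin.last m)
  simp only [proj_pt, pt_last] at h1 h2
  exact ⟨h1, h2⟩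

/-- the homeomorphism `ℝ^m × ℝ ≃ ℝ^(m+1)` -/
def ptHomeo (m : ℕ) : ((Fin m → ℝ) × ℝ) ≃ₜ (Fin (m + 1) → ℝ) where
  toFun z := pt z.1 z.2
  invFun y := (proj y, y (Fin.last m))
  left_inv z := by simp
  right_inv y := by simp
  continuous_toFun := continuous_pt
  continuous_invFun := continuous_proj.prodMk (continuous_apply _)

/-- the product `E × I` as a subset of `ℝ^(m+1)` -/
def slab (E : Set (Fin m → ℝ)) (I : Set ℝ) : Set (Fin (m + 1) → ℝ) :=
  {y | proj y ∈ E ∧ y (Fin.last m) ∈ I}

@[simp] theorem pt_mem_slab {E : Set (Fin m → ℝ)} {I : Set ℝ} {x : Fin m → ℝ} {t : ℝ} :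
    pt x t ∈ slab E I ↔ x ∈ E ∧ t ∈ I := by
  simp [slab]

theorem slab_eq_image (E : Set (Fin m → ℝ)) (I : Set ℝ) :
    slab E I = ptHomeo m '' (E ×ˢ I) := by
  ext y
  constructor
  · intro hy
    exact ⟨(proj y, y (Fin.last m)), ⟨hy.1, hy.2⟩, pt_proj y⟩
  · rintro ⟨z, hz, rfl⟩
    change pt z.1 z.2 ∈ _
    rw [pt_mem_slab]
    exact hz

theorem closure_slab (E : Set (Fin m → ℝ)) (I : Set ℝ) :
    closure (slab E I) = slab (closure E) (closure I) := by
  rw [slab_eq_image, slab_eq_image, ← Homeomorph.image_closure, closure_prod_eq]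

theorem isOpen_slab {E : Set (Fin m → ℝ)} {I : Set ℝ} (hE : IsOpen E) (hI : IsOpen I) :
    IsOpen (slab E I) :=
  (hE.preimage continuous_proj).inter (hI.preimage (continuous_apply _))

theorem isPreconnected_slab {E : Set (Fin m → ℝ)} {I : Set ℝ} (hE : IsPreconnected E)
    (hI : IsPreconnected I) : IsPreconnected (slab E I) := by
  rw [slab_eq_image]
  exact (hE.prod hI).image _ (ptHomeo m).continuous.continuousOn

theorem proj_slab {E : Set (Fin m → ℝ)} {I : Set ℝ} (hI : I.Nonempty) :
    proj '' slab E I = E := by
  obtain ⟨t, ht⟩ := hI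
  ext x
  constructor
  · rintro ⟨y, hy, rfl⟩; exact hy.1
  · intro hx
    exact ⟨pt x t, pt_mem_slab.2 ⟨hx, ht⟩, proj_pt x t⟩

end Basic

end Pool.Agent.W_MP_cfb63a_co
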