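import Pool.Agent.W_MP_cfb63a_co.Count

/-!
# The arrangement
-/

set_option autoImplicit false

open Set

namespace Pool.Agent.W_MP_cfb63a_co

/-- the sign belonging to a side -/
def sg (s : Bool) : ℝ := if s then 1 else -1

/-- number of the coordinate that is read by a side -/
def rd (s : Bool) : ℕ := if s then 0 else 1

/-- index type of the patches -/
abbrev Idx (K n M₀ : ℕ) : Type := (Bool × Fin K × Fin n) ⊕ (Fin M₀ ⊕ Fin 2)

/-- the patches -/
def Gam (K n M₀ : ℕ) : Idx K n M₀ → Set (Fin (K + 2) → ℝ)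
  | Sum.inl z => {x | Hit n (sg z.1) (K + 2) (co (rd z.1) x) x (z.2.1 + 2) z.2.2}
  | Sum.inr (Sum.inl t) => {x | x 0 = 1 - (t : ℕ)}
  | Sum.inr (Sum.inr e) => {x | x 1 = (e : ℕ)}

/-! ### The patches have bounded complexity -/

section Patch

open MvPolynomial

theorem hit_poly {d : ℕ} (n : ℕ) (s : ℝ) (c i : ℕ) (hc : 2 ≤ c) (m : ℕ) :
    ∀ (hmd : m ≤ d) (hcm : c < m) (w : MvPolynomial (Fin d) ℝ), w.totalDegree ≤ 1 →
      ∃ W : MvPolynomial (Fin d) ℝ, W.totalDegree ≤ 1 ∧ ∀ x : Fin d → ℝ,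
        (Hit n s m (eval x w) (fun k => x (Fin.castLE hmd k)) c i ↔
          s * x ⟨c, by omega⟩ = n - i ∧ (i : ℝ) ≤ n * eval x W) := by
  induction m with
  | zero => intro _ hcm; omega
  | succ m ih =>
    intro hmd hcm w hw
    by_cases hcm' : c = m
    · subst hcm'
      refine ⟨w, hw, fun x => ?_⟩
      constructor
      · rintro ⟨_, h | h⟩
        · exact ⟨h.2.1, h.2.2⟩
        · have := hit_c _ _ _ _ _ _ _ h
          omega
      · rintro ⟨h1, h2⟩
        exact ⟨hc, Or.inl ⟨rfl, h1, h2⟩⟩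
    · have hlt : c < m := by omega
      obtain ⟨W, hW, hWx⟩ := ih (by omega) hlt (C (n : ℝ) * w + C s * X ⟨m, by omega⟩ - C (n : ℝ)) (by
        refine (totalDegree_sub _ _).trans (max_le ((totalDegree_add _ _).trans (max_le ?_ ?_)) ?_)
        · exact (totalDegree_mul _ _).trans (by rw [totalDegree_C, zero_add]; exact hw)
        · exact (totalDegree_mul _ _).trans (by rw [totalDegree_C, zero_add, totalDegree_X])
        · rw [totalDegree_C]; exact Nat.zero_le _)
      refine ⟨W, hW, fun x => ?_⟩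
      rw [← hWx x]
      have e1 : eval x (C (n : ℝ) * w + C s * X ⟨m, by omega⟩ - C (n : ℝ)) =
          n * eval x w + s * x (Fin.castLE hmd (Fin.last m)) - n := by
        simp only [map_sub, map_add, map_mul, eval_C, eval_X]
        rfl
      rw [e1]
      constructor
      · rintro ⟨_, h | h⟩
        · exact absurd h.1 hcm'
        · exact h
      · intro h
        exact ⟨by omega, Or.inr h⟩

theorem isPatch_of_one {d : ℕ} {b : ℕ} (hb : 1 ≤ b) (P Q : MvPolynomial (Fin d) ℝ) (hP : P ≠ 0)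
    (hP1 : P.totalDegree ≤ 1) (hQ1 : Q.totalDegree ≤ 1) {S : Set (Fin d → ℝ)}
    (hS : ∀ x, x ∈ S ↔ eval x P = 0 ∧ 0 ≤ eval x Q) : IsPatch b S := by
  refine ⟨P, fun _ => Q, hP, hP1.trans hb, fun _ => hQ1.trans hb, ?_⟩
  ext x
  rw [hS x, mem_ofPred_eq]
  constructor
  · rintro ⟨h1, h2⟩; exact ⟨h1, fun _ => h2⟩
  · rintro ⟨h1, h2⟩; exact ⟨h1, h2 ⟨0, by omega⟩⟩

theorem lin_ne_zero {d : ℕ} (k : Fin d) (s r : ℝ) (hs : s ≠ 0) :
    (C s * X k - C r : MvPolynomial (Fin d) ℝ) ≠ 0 := by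
  intro h
  have h1 := congrArg (eval (fun _ => (r + 1) / s)) h
  simp only [map_sub, map_mul, eval_C, eval_X, map_zero] at h1
  field_simp at h1
  linarith

theorem lin_degree {d : ℕ} (k : Fin d) (s r : ℝ) :
    (C s * X k - C r : MvPolynomial (Fin d) ℝ).totalDegree ≤ 1 := by
  refine (totalDegree_sub _ _).trans (max_le ?_ ?_)
  · exact (totalDegree_mul _ _).trans (by rw [totalDegree_C, zero_add, totalDegree_X])
  · rw [totalDegree_C]; exact Nat.zero_le _

theorem isPatch_Gam {K n M₀ b : ℕ} (hb : 1 ≤ b) (k : Idx K n M₀) :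
    IsPatch b (Gam K n M₀ k) := by
  rcases k with ⟨s, c, i⟩ | t | e
  · have hsg : sg s ≠ 0 := by cases s <;> simp [sg]
    have hrd : rd s < K + 2 := by cases s <;> simp [rd]
    obtain ⟨W, hW, hWx⟩ := hit_poly (d := K + 2) n (sg s) (c + 2) i (by omega) (K + 2) le_rfl
      (by omega) (X ⟨rd s, hrd⟩) (by rw [totalDegree_X])
    refine isPatch_of_one hb (C (sg s) * X ⟨c + 2, by omega⟩ - C ((n : ℝ) - i))
      (C (n : ℝ) * W - C (i : ℝ)) (lin_ne_zero _ _ _ hsg) (lin_degree _ _ _) ?_ ?_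
    · refine (totalDegree_sub _ _).trans (max_le ?_ ?_)
      · exact (totalDegree_mul _ _).trans (by rw [totalDegree_C, zero_add]; exact hW)
      · rw [totalDegree_C]; exact Nat.zero_le _
    · intro x
      have h1 := hWx x
      rw [eval_X] at h1
      have h2 : co (rd s) x = x ⟨rd s, hrd⟩ := by rw [co, dif_pos hrd]
      change Hit n (sg s) (K + 2) (co (rd s) x) x (c + 2) i ↔ _
      rw [h2]
      simp only [map_sub, map_mul, eval_C, eval_X, sub_nonneg, sub_eq_zero]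
      exact h1
  · refine isPatch_of_one hb (C 1 * X 0 - C ((1 : ℝ) - (t : ℕ))) 0 (lin_ne_zero _ _ _ one_ne_zero)
      (lin_degree _ _ _) (by simp) ?_
    intro x
    simp only [map_sub, map_mul, eval_C, eval_X, map_zero, le_refl, and_true, one_mul,
      sub_eq_zero]
    rfl
  · refine isPatch_of_one hb (C 1 * X 1 - C ((e : ℕ) : ℝ)) 0 (lin_ne_zero _ _ _ one_ne_zero)
      (lin_degree _ _ _) (by simp) ?_
    intro x
    simp only [map_sub, map_mul, eval_C, eval_X, map_zero, le_refl, and_true, one_mul,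
      sub_eq_zero]
    rfl

end Patch

/-! ### The central cell -/

section Central

variable {K n M₀ : ℕ} {ι : Type}

/-- labels -/
def Lb (e : Idx K n M₀ ≃ ι) (d0 : ι) : Bool → ℕ → ℕ → ι := fun s c i =>
  if h : (2 ≤ c ∧ c < K + 2) ∧ i < n then
    e (Sum.inl (s, ⟨c - 2, by omega⟩, ⟨i, h.2⟩)) else d0

theorem Lb_eq (e : Idx K n M₀ ≃ ι) (d0 : ι) (s : Bool) (c i : ℕ) (hc : 2 ≤ c) (hc' : c < K + 2)
    (hi : i < n) : Lb e d0 s c i = e (Sum.inl (s, ⟨c - 2, by omega⟩, ⟨i, hi⟩)) := by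
  rw [Lb, dif_pos ⟨⟨hc, hc'⟩, hi⟩]

theorem Lb_inj (e : Idx K n M₀ ≃ ι) (d0 : ι) : Inj n (K + 2) (Lb e d0) := by
  intro s c i s' c' i' hc hc1 hi hc' hc1' hi' h
  rw [Lb_eq e d0 s c i hc hc1 hi, Lb_eq e d0 s' c' i' hc' hc1' hi'] at h
  have h1 := e.injective h
  simp only [Sum.inl.injEq, Prod.mk.injEq, Fin.mk.injEq] at h1
  obtain ⟨h1, h2, h3⟩ := h1
  exact ⟨h1, by omega, h3⟩

/-- the arrangement, with labels in `ι` -/
def Fam (e : Idx K n M₀ ≃ ι) : ι → Set (Fin (K + 2) → ℝ) := fun k => Gam K n M₀ (e.symm k)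

theorem mem_compl_iff_hit (e : Idx K n M₀ ≃ ι) (q : Fin (K + 2) → ℝ) :
    (∀ k, q ∉ Fam e k) ↔ ¬ HitAny n 1 (K + 2) (co 0 q) q ∧ ¬ HitAny n (-1) (K + 2) (co 1 q) q ∧
      (∀ t : Fin M₀, q 0 ≠ 1 - (t : ℕ)) ∧ (∀ z : Fin 2, q 1 ≠ (z : ℕ)) := by
  constructor
  · intro h
    have h' : ∀ z, q ∉ Gam K n M₀ z := by
      intro z
      have := h (e z)
      rw [Fam, e.symm_apply_apply] at this
      exact this
    refine ⟨?_, ?_, fun t => h' (Sum.inr (Sum.inl t)), fun z => h' (Sum.inr (Sum.inr z))⟩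
    · rintro ⟨c, i, hi, hh⟩
      have hc := hit_c _ _ _ _ _ _ _ hh
      apply h' (Sum.inl (true, ⟨c - 2, by omega⟩, ⟨i, hi⟩))
      change Hit n (sg true) (K + 2) (co (rd true) q) q (c - 2 + 2) i
      have : c - 2 + 2 = c := by omega
      rw [this]
      simpa [sg, rd] using hh
    · rintro ⟨c, i, hi, hh⟩
      have hc := hit_c _ _ _ _ _ _ _ hh
      apply h' (Sum.inl (false, ⟨c - 2, by omega⟩, ⟨i, hi⟩))
      change Hit n (sg false) (K + 2) (co (rd false) q) q (c - 2 + 2) i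
      have : c - 2 + 2 = c := by omega
      rw [this]
      simpa [sg, rd] using hh
  · rintro ⟨h1, h2, h3, h4⟩ k hk
    rw [Fam] at hk
    generalize e.symm k = z at hk
    rcases z with ⟨s, c, i⟩ | t | z
    · have hk' : Hit n (sg s) (K + 2) (co (rd s) q) q (c + 2) i := hk
      cases s
      · apply h2
        refine ⟨c + 2, i, i.2, ?_⟩
        simpa [sg, rd] using hk'
      · apply h1
        refine ⟨c + 2, i, i.2, ?_⟩
        simpa [sg, rd] using hk'
    · exact h3 t hk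
    · exact h4 z hk

theorem inv_start (hM : 2 ≤ M₀) (e : Idx K n M₀ ≃ ι) (d0 : ι) :
    Inv n (Lb e d0) (K + 2)
      (connectedComponentIn {q | ∀ k, q ∉ Fam e k} (cpt (K + 2) (1 / 2) (1 / 2)))
      (fun q => {k | q ∈ Fam e k}) (fun a => a) (fun a => a)
      (fun a => {γ | ∃ t : Fin M₀, γ = e (Sum.inr (Sum.inl t)) ∧ a = 1 - (t : ℕ)})
      (fun a => {γ | ∃ z : Fin 2, γ = e (Sum.inr (Sum.inr z)) ∧ a = (z : ℕ)}) := by
  set R : Set (Fin (K + 2) → ℝ) := {q | ∀ k, q ∉ Fam e k} with hR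
  set p₀ : Fin (K + 2) → ℝ := cpt (K + 2) (1 / 2) (1 / 2) with hp₀
  have hco0 : ∀ q : Fin (K + 2) → ℝ, co 0 q = q 0 := fun q => by
    rw [co, dif_pos (by omega)]; rfl
  have hco1 : ∀ q : Fin (K + 2) → ℝ, co 1 q = q 1 := fun q => by
    rw [co, dif_pos (by omega)]; rfl
  have hGR : G n (K + 2) (fun a => a) (fun a => a) ⊆ R := by
    rintro q ⟨⟨a0, a1⟩, ⟨b0, b1⟩, hT, hB⟩
    change ∀ k, q ∉ Fam e k
    rw [mem_compl_iff_hit]
    refine ⟨hT, hB, ?_, ?_⟩
    · intro t ht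
      rw [hco0, ht] at a0 a1
      have h1 : (0 : ℝ) < (t : ℕ) := by linarith
      have h2 : ((t : ℕ) : ℝ) < 1 := by linarith
      have h1' : 0 < (t : ℕ) := by exact_mod_cast h1
      have h2' : (t : ℕ) < 1 := by exact_mod_cast h2
      omega
    · intro z hz
      rw [hco1, hz] at b0 b1
      change (0 : ℝ) < ((z : ℕ) : ℝ) at b0
      change ((z : ℕ) : ℝ) < 1 at b1
      have h1' : 0 < (z : ℕ) := by exact_mod_cast b0
      have h2' : (z : ℕ) < 1 := by exact_mod_cast b1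
      omega
  have hsat : ∀ S : Set (Fin (K + 2) → ℝ), S ⊆ G n (K + 2) (fun a => a) (fun a => a) →
      IsPreconnected S → (S ∩ connectedComponentIn R p₀).Nonempty →
      S ⊆ connectedComponentIn R p₀ := by
    rintro S hS hpre ⟨z, hzS, hzD⟩
    rw [connectedComponentIn_eq hzD]
    exact hpre.subset_connectedComponentIn hzS (hS.trans hGR)
  have hp₀c : p₀ ∈ Central (K + 2) (fun a => a) (fun a => a) := by
    refine ⟨?_, ?_, ?_, ?_, fun k hk => co_cpt _ _ k hk⟩
    · change 0 < co 0 p₀; rw [hp₀, co_cpt_zero (by omega)]; norm_num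
    · change co 0 p₀ < 1; rw [hp₀, co_cpt_zero (by omega)]; norm_num
    · change 0 < co 1 p₀; rw [hp₀, co_cpt_one (by omega)]; norm_num
    · change co 1 p₀ < 1; rw [hp₀, co_cpt_one (by omega)]; norm_num
  have hp₀R : p₀ ∈ R := hGR (central_sub_G n _ _ _ hp₀c)
  have hp₀D : p₀ ∈ connectedComponentIn R p₀ := mem_connectedComponentIn hp₀R
  have haff : Aff (fun a : ℝ => a) := ⟨1, 0, one_pos, fun a => by ring⟩
  have hstrip : ∀ k : ℕ, k = 0 ∨ k = 1 →
      connectedComponentIn R p₀ ⊆ {q | 0 < co k q ∧ co k q < 1} := by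
    intro k hk
    have hu : IsOpen {q : Fin (K + 2) → ℝ | 0 < co k q ∧ co k q < 1} :=
      (isOpen_lt continuous_const (continuous_co k)).inter
        (isOpen_lt (continuous_co k) continuous_const)
    refine isPreconnected_connectedComponentIn.subset_of_closure_inter_subset hu ?_ ?_
    · refine ⟨p₀, hp₀D, ?_⟩
      rcases hk with rfl | rfl
      · exact ⟨hp₀c.1, hp₀c.2.1⟩
      · exact ⟨hp₀c.2.2.1, hp₀c.2.2.2.1⟩
    · rintro q ⟨hq, hqD⟩
      have hqR := connectedComponentIn_subset _ _ hqD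
      have hcl : closure {q : Fin (K + 2) → ℝ | 0 < co k q ∧ co k q < 1} ⊆
          {q | 0 ≤ co k q ∧ co k q ≤ 1} := by
        apply closure_minimal
        · intro q hq; exact ⟨hq.1.le, hq.2.le⟩
        · exact (isClosed_le continuous_const (continuous_co k)).inter
            (isClosed_le (continuous_co k) continuous_const)
      obtain ⟨h0, h1⟩ := hcl hq
      have hqR' : ∀ k, q ∉ Fam e k := hqR
      rw [mem_compl_iff_hit] at hqR'
      obtain ⟨_, _, h3, h4⟩ := hqR'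
      rcases hk with rfl | rfl
      · have e0 := h3 ⟨0, by omega⟩
        have e1 := h3 ⟨1, by omega⟩
        simp only [Nat.cast_zero, sub_zero, Nat.cast_one, sub_self] at e0 e1
        rw [← hco0 q] at e0 e1
        exact ⟨lt_of_le_of_ne h0 (Ne.symm e1), lt_of_le_of_ne h1 e0⟩
      · have e0 := h4 ⟨0, by omega⟩
        have e1 := h4 ⟨1, by omega⟩
        simp only [Nat.cast_zero, Nat.cast_one] at e0 e1
        rw [← hco1 q] at e0 e1
        exact ⟨lt_of_le_of_ne h0 (Ne.symm e0), lt_of_le_of_ne h1 e1⟩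
  refine ⟨haff, haff, ?_, hsat, ?_, ?_, ?_, ?_, ?_, ?_⟩
  · intro q hq
    have h1 := hstrip 0 (Or.inl rfl) hq
    have h2 := hstrip 1 (Or.inr rfl) hq
    have hqR : ∀ k, q ∉ Fam e k := connectedComponentIn_subset _ _ hq
    rw [mem_compl_iff_hit] at hqR
    exact ⟨h1, h2, hqR.1, hqR.2.1⟩
  · intro x x1 x2 x3 x4 x5
    exact hsat _ (central_sub_G n _ _ _) (convex_central _ haff haff).isPreconnected
      ⟨p₀, hp₀c, hp₀D⟩ ⟨x1, x2, x3, x4, x5⟩
  · intro y _ γ
    obtain ⟨z, rfl⟩ := e.surjective γ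
    have hmem : (e z ∈ (fun q => {k | q ∈ Fam e k}) y) ↔ y ∈ Gam K n M₀ z := by
      simp only [mem_ofPred_eq, Fam, e.symm_apply_apply]
    rw [hmem]
    constructor
    · intro hy
      rcases z with ⟨s, c, i⟩ | t | z
      · have hy' : Hit n (sg s) (K + 2) (co (rd s) y) y (c + 2) i := hy
        have hl : e (Sum.inl (s, c, i)) = Lb e d0 s (c + 2) i := by
          rw [Lb_eq e d0 s (c + 2) i (by omega) (by omega) i.2]
          rfl
        cases s
        · right; right; right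
          exact ⟨c + 2, i, i.2, hl, by simpa [sg, rd] using hy'⟩
        · right; right; left
          exact ⟨c + 2, i, i.2, hl, by simpa [sg, rd] using hy'⟩
      · left
        refine ⟨t, rfl, ?_⟩
        rw [hco0]; exact hy
      · right; left
        refine ⟨z, rfl, ?_⟩
        rw [hco1]; exact hy
    · rintro (⟨t, h1, h2⟩ | ⟨t, h1, h2⟩ | ⟨c, i, hi, h1, h2⟩ | ⟨c, i, hi, h1, h2⟩)
      · have := e.injective h1
        subst this
        rw [hco0] at h2
        exact h2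
      · have := e.injective h1
        subst this
        rw [hco1] at h2
        exact h2
      · have hc := hit_c _ _ _ _ _ _ _ h2
        rw [Lb_eq e d0 true c i hc.1 hc.2 hi] at h1
        have := e.injective h1
        subst this
        change Hit n (sg true) (K + 2) (co (rd true) y) y (c - 2 + 2) i
        have hc2 : c - 2 + 2 = c := by omega
        rw [hc2]
        simpa [sg, rd] using h2
      · have hc := hit_c _ _ _ _ _ _ _ h2
        rw [Lb_eq e d0 false c i hc.1 hc.2 hi] at h1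
        have := e.injective h1
        subst this
        change Hit n (sg false) (K + 2) (co (rd false) y) y (c - 2 + 2) i
        have hc2 : c - 2 + 2 = c := by omega
        rw [hc2]
        simpa [sg, rd] using h2
  · have hempty : ∀ a : ℝ, 0 < a → a < 1 →
        {γ : ι | ∃ t : Fin M₀, γ = e (Sum.inr (Sum.inl t)) ∧ a = 1 - (t : ℕ)} = ∅ := by
      intro a a0 a1
      rw [eq_empty_iff_forall_notMem]
      rintro γ ⟨t, _, ht⟩
      have h1 : (0 : ℝ) < (t : ℕ) := by linarith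
      have h2 : ((t : ℕ) : ℝ) < 1 := by linarith
      have h1' : 0 < (t : ℕ) := by exact_mod_cast h1
      have h2' : (t : ℕ) < 1 := by exact_mod_cast h2
      omega
    intro a a' h0 h1 h0' h1'
    rw [hempty a h0 h1, hempty a' h0' h1']
  · have hempty : ∀ a : ℝ, 0 < a → a < 1 →
        {γ : ι | ∃ z : Fin 2, γ = e (Sum.inr (Sum.inr z)) ∧ a = (z : ℕ)} = ∅ := by
      intro a a0 a1
      rw [eq_empty_iff_forall_notMem]
      rintro γ ⟨t, _, ht⟩
      rw [ht] at a0 a1
      have h1' : 0 < (t : ℕ) := by exact_mod_cast a0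
      have h2' : (t : ℕ) < 1 := by exact_mod_cast a1
      omega
    intro a a' h0 h1 h0' h1'
    rw [hempty a h0 h1, hempty a' h0' h1']
  · rintro a s c i hc hc' hi ⟨t, h1, _⟩
    rw [Lb_eq e d0 s c i hc hc' hi] at h1
    have := e.injective h1
    simp at this
  · rintro a s c i hc hc' hi ⟨t, h1, _⟩
    rw [Lb_eq e d0 s c i hc hc' hi] at h1
    have := e.injective h1
    simp at this

end Central

/-! ### The patches are different -/

/-- every point of the right hyperplane far enough in the direction of the read coordinate lies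
on the patch -/
theorem exists_hit {n : ℕ} (hn : 0 < n) (s : ℝ) (m : ℕ) : ∀ (x : Fin m → ℝ) (c i : ℕ),
    2 ≤ c → c < m → s * co c x = n - i → ∃ w₀ : ℝ, ∀ w, w₀ ≤ w → Hit n s m w x c i := by
  have hn1 : (1 : ℝ) ≤ n := by exact_mod_cast hn
  have key : ∀ a w : ℝ, |a| ≤ w → a ≤ n * w := by
    intro a w hw
    have h1 : 0 ≤ w := (abs_nonneg a).trans hw
    have h2 : 1 * w ≤ n * w := mul_le_mul_of_nonneg_right hn1 h1
    have h3 := le_abs_self a
    linarith
  induction m with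
  | zero => intro x c i _ hc; omega
  | succ m ih =>
    intro x c i hc hcm hx
    by_cases hcm' : c = m
    · subst hcm'
      refine ⟨|(i : ℝ)|, fun w hw => ⟨hc, Or.inl ⟨rfl, ?_, key _ _ hw⟩⟩⟩
      rw [co, dif_pos hcm] at hx
      exact hx
    · have hlt : c < m := by omega
      obtain ⟨w₀, hw₀⟩ := ih (proj x) c i hc hlt (by rw [co_proj c hlt]; exact hx)
      refine ⟨|w₀ + n - s * x (Fin.last m)|, fun w hw => ⟨by omega, Or.inr (hw₀ _ ?_)⟩⟩
      have := key _ _ hw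
      linarith

theorem gam_injective (K n M₀ : ℕ) : Function.Injective (Gam K n M₀) := by
  -- points on a half-hyperplane
  have hpt : ∀ (s : Bool) (c : Fin K) (i : Fin n), ∃ (x : Fin (K + 2) → ℝ) (W : ℝ),
      x ∈ Gam K n M₀ (Sum.inl (s, c, i)) ∧ 2 ≤ W ∧ x 0 = W ∧ x 1 = W ∧
      co (c + 2) x = sg s * ((n : ℝ) - (i : ℕ)) ∧
      ∀ k, 2 ≤ k → k < K + 2 → k ≠ c + 2 → co k x = 1 / 2 := by
    intro s c i
    have hn : 0 < n := Nat.zero_lt_of_lt i.2
    have hsg : sg s * sg s = 1 := by cases s <;> simp [sg]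
    let y : ℝ → Fin (K + 2) → ℝ := fun W k =>
      if (k : ℕ) < 2 then W else if (k : ℕ) = c + 2 then sg s * ((n : ℝ) - (i : ℕ)) else 1 / 2
    have hyc : ∀ W, co (c + 2) (y W) = sg s * ((n : ℝ) - (i : ℕ)) := by
      intro W
      rw [co, dif_pos (by omega)]
      simp [y]
    have hyk : ∀ W, ∀ k, 2 ≤ k → k < K + 2 → k ≠ c + 2 → co k (y W) = 1 / 2 := by
      intro W k hk hkm hne
      have h1 : ¬ k < 2 := by omega
      rw [co, dif_pos hkm]
      simp only [y, if_neg h1, if_neg hne]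
    obtain ⟨w₀, hw₀⟩ := exists_hit hn (sg s) (K + 2) (y 0) (c + 2) i (by omega) (by omega) (by
      rw [hyc, ← mul_assoc, hsg, one_mul])
    refine ⟨y (max 2 w₀), max 2 w₀, ?_, le_max_left _ _, ?_, ?_, hyc _, hyk _⟩
    · change Hit n (sg s) (K + 2) (co (rd s) (y (max 2 w₀))) (y (max 2 w₀)) (c + 2) i
      have hrd : rd s < 2 := by cases s <;> simp [rd]
      have h1 : co (rd s) (y (max 2 w₀)) = max 2 w₀ := by
        rw [co, dif_pos (by omega)]
        simp only [y, if_pos hrd]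
      rw [h1]
      refine hit_congr _ _ _ _ (y 0) _ _ _ ?_ (hw₀ _ (le_max_right _ _))
      intro k hk hkm
      have h2 : ¬ k < 2 := by omega
      rw [co, dif_pos hkm, co, dif_pos hkm]
      simp only [y, if_neg h2]
    · simp [y]
    · simp [y]
  -- comparison with the hyperplanes
  have hne : ∀ (z : Bool × Fin K × Fin n) (u : Fin M₀ ⊕ Fin 2),
      Gam K n M₀ (Sum.inl z) ≠ Gam K n M₀ (Sum.inr u) := by
    rintro ⟨s, c, i⟩ u heq
    obtain ⟨x, W, hx, hW, hx0, hx1, _, _⟩ := hpt s c i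
    rw [heq] at hx
    rcases u with t | e
    · have h1 : x 0 = 1 - (t : ℕ) := hx
      have h2 : (0 : ℝ) ≤ (t : ℕ) := Nat.cast_nonneg _
      linarith
    · have h1 : x 1 = (e : ℕ) := hx
      have h2 : ((e : ℕ) : ℝ) ≤ 1 := by
        have : (e : ℕ) ≤ 1 := by omega
        exact_mod_cast this
      linarith
  have hcpt0 : ∀ a b : ℝ, cpt (K + 2) a b 0 = a := fun a b => by simp [cpt]
  have hcpt1 : ∀ a b : ℝ, cpt (K + 2) a b 1 = b := fun a b => by simp [cpt]
  have hne2 : ∀ (t : Fin M₀) (e : Fin 2),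
      Gam K n M₀ (Sum.inr (Sum.inl t)) ≠ Gam K n M₀ (Sum.inr (Sum.inr e)) := by
    intro t e heq
    have h1 : cpt (K + 2) (1 - (t : ℕ)) 2 ∈ Gam K n M₀ (Sum.inr (Sum.inl t)) := hcpt0 _ _
    rw [heq] at h1
    have h2 : cpt (K + 2) (1 - (t : ℕ)) 2 1 = ((e : ℕ) : ℝ) := h1
    rw [hcpt1] at h2
    have h3 : ((e : ℕ) : ℝ) ≤ 1 := by
      have : (e : ℕ) ≤ 1 := by omega
      exact_mod_cast this
    linarith
  rintro (⟨s, c, i⟩ | t | e) (⟨s', c', i'⟩ | t' | e') heq
  · obtain ⟨x, W, hx, hW, hx0, hx1, hxc, hxk⟩ := hpt s c i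
    have hx' := hx
    rw [heq] at hx'
    have hh : Hit n (sg s') (K + 2) (co (rd s') x) x (c' + 2) i' := hx'
    have h1 := hit_height _ _ _ _ _ _ _ hh
    have hi1 : (1 : ℝ) ≤ (n : ℝ) - (i : ℕ) := cast_le_sub i.2
    have hi2 : (1 : ℝ) ≤ (n : ℝ) - (i' : ℕ) := cast_le_sub i'.2
    have hcc : c = c' := by
      by_contra hcne
      have hne3 : (c' : ℕ) + 2 ≠ c + 2 := by
        intro h
        apply hcne
        apply Fin.ext
        omega
      rw [hxk _ (by omega) (by omega) hne3] at h1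
      cases s'
      · simp only [sg, Bool.false_eq_true, if_false] at h1
        linarith
      · simp only [sg, if_true, one_mul] at h1
        have h2 : (1 : ℝ) = 2 * (n : ℝ) - 2 * (i' : ℕ) := by linarith
        have h3 : ((1 : ℤ) : ℝ) = ((2 * (n : ℤ) - 2 * (i' : ℕ) : ℤ) : ℝ) := by
          push_cast; exact_mod_cast h2
        have h4 : (1 : ℤ) = 2 * (n : ℤ) - 2 * (i' : ℕ) := by exact_mod_cast h3
        omega
    subst hcc
    rw [hxc] at h1
    have hss : s = s' ∧ (n : ℝ) - (i : ℕ) = (n : ℝ) - (i' : ℕ) := by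
      cases s <;> cases s' <;> simp only [sg, Bool.false_eq_true, if_false, if_true] at h1 <;>
        constructor <;> first | rfl | linarith
    obtain ⟨rfl, h2⟩ := hss
    have h3 : ((i : ℕ) : ℝ) = ((i' : ℕ) : ℝ) := by linarith
    have h4 : (i : ℕ) = (i' : ℕ) := by exact_mod_cast h3
    rw [Fin.ext h4]
  · exact absurd heq (hne _ _)
  · exact absurd heq (hne _ _)
  · exact absurd heq.symm (hne _ _)
  · have h1 : cpt (K + 2) (1 - (t : ℕ)) 2 ∈ Gam K n M₀ (Sum.inr (Sum.inl t)) := hcpt0 _ _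
    rw [heq] at h1
    have h2 : cpt (K + 2) (1 - (t : ℕ)) 2 0 = 1 - ((t' : ℕ) : ℝ) := h1
    rw [hcpt0] at h2
    have h3 : ((t : ℕ) : ℝ) = ((t' : ℕ) : ℝ) := by linarith
    have h4 : (t : ℕ) = (t' : ℕ) := by exact_mod_cast h3
    rw [Fin.ext h4]
  · exact absurd heq (hne2 _ _)
  · exact absurd heq.symm (hne _ _)
  · exact absurd heq.symm (hne2 _ _)
  · have h1 : cpt (K + 2) 2 (e : ℕ) ∈ Gam K n M₀ (Sum.inr (Sum.inr e)) := hcpt1 _ _
    rw [heq] at h1
    have h2 : cpt (K + 2) 2 (e : ℕ) 1 = ((e' : ℕ) : ℝ) := h1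
    rw [hcpt1] at h2
    have h4 : (e : ℕ) = (e' : ℕ) := by exact_mod_cast h2
    rw [Fin.ext h4]

/-- Many cells: `2 K n + M₀ + 2` patches in `ℝ^(K+2)` with at least `n ^ (2 K)` cells. -/
theorem many_cells (κ : Bool) (K n M₀ b N : ℕ) (hb : 1 ≤ b) (hM : 2 ≤ M₀)
    (hN : N = 2 * K * n + M₀ + 2) : (((n * n) ^ K : ℕ) : ℕ∞) ≤ maxCells κ b (K + 2) N := by
  have hcard : Fintype.card (Idx K n M₀) = N := by
    simp only [Idx, Fintype.card_sum, Fintype.card_prod, Fintype.card_bool, Fintype.card_fin]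
    rw [hN]; ring
  let e : Idx K n M₀ ≃ Fin N := Fintype.equivFinOfCardEq hcard
  have hN0 : 0 < N := by omega
  obtain ⟨F, hF, hFc⟩ := count (κ := κ) (n := n) (M := K + 2) (Lb_inj e ⟨0, hN0⟩) K
    (inv_start hM e ⟨0, hN0⟩) le_rfl
  have hpatch : ∀ k, IsPatch b (Fam e k) := fun k => isPatch_Gam hb _
  have hdist : Function.Injective (Fam e) := (gam_injective K n M₀).comp e.symm.injective
  have h1 : (((n * n) ^ K : ℕ) : ℕ∞) ≤ (VD κ (Fam e)).encard := by
    rw [← hFc, ← Set.encard_coe_eq_coe_finsetCard]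
    apply Set.encard_le_encard
    intro c hc
    refine ⟨cpt (K + 2) (1 / 2) (1 / 2), ?_, hF hc⟩
    by_contra hn
    have hempty : connectedComponentIn {q | ∀ k, q ∉ Fam e k} (cpt (K + 2) (1 / 2) (1 / 2)) = ∅ :=
      connectedComponentIn_eq_empty hn
    have hinv := inv_start hM e (⟨0, hN0⟩ : Fin N)
    have : cpt (K + 2) (1 / 2) (1 / 2) ∈
        connectedComponentIn {q | ∀ k, q ∉ Fam e k} (cpt (K + 2) (1 / 2) (1 / 2)) := by
      apply hinv.cen
      · rw [co_cpt_zero (by omega)]; norm_num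
      · rw [co_cpt_zero (by omega)]; norm_num
      · rw [co_cpt_one (by omega)]; norm_num
      · rw [co_cpt_one (by omega)]; norm_num
      · exact fun k hk => co_cpt _ _ k hk
    rw [hempty] at this
    exact this
  exact h1.trans (le_iSup (fun Γ : {Γ : Fin N → Set (Fin (K + 2) → ℝ) //
    Function.Injective Γ ∧ ∀ k, IsPatch b (Γ k)} => (VD κ Γ.1).encard) ⟨Fam e, hdist, hpatch⟩)

/-- The lower bound `V_d(N) ≥ c N ^ (2 d - 4)`. -/
theorem main_bound (d : ℕ) (hd : 3 ≤ d) (b : ℕ) (hb : 1 ≤ b) :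
    ∃ C N₀ : ℕ, 0 < C ∧ ∀ κ : Bool, ∀ N : ℕ, N₀ ≤ N →
      ((N ^ (2 * d - 4) : ℕ) : ℕ∞) ≤ C * maxCells κ b d N := by
  obtain ⟨K, rfl⟩ : ∃ K, d = K + 2 := ⟨d - 2, by omega⟩
  have hK : 1 ≤ K := by omega
  refine ⟨(4 * K) ^ (2 * K), 6 * K + 4, by positivity, fun κ N hN => ?_⟩
  set n := (N - 4) / (2 * K) with hn
  have h1 : 2 * K * n ≤ N - 4 := Nat.mul_div_le _ _
  have h2 : N - 4 < 2 * K * (n + 1) := by
    have := Nat.div_add_mod (N - 4) (2 * K)
    have h3 := Nat.mod_lt (N - 4) (show 0 < 2 * K by omega)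
    rw [mul_add, mul_one, hn]
    omega
  have h3 : 3 ≤ n := by
    rw [hn, Nat.le_div_iff_mul_le (by omega)]
    omega
  have h4 : N ≤ 4 * K * n := by
    have h5 : 2 * K * 3 ≤ 2 * K * n := Nat.mul_le_mul_left _ h3
    have h6 : 2 * K * (n + 1) = 2 * K * n + 2 * K := by ring
    have h7 : 4 * K * n = 2 * K * n + 2 * K * n := by ring
    omega
  have h5 := many_cells κ K n (N - 2 * K * n - 2) b N hb (by omega) (by omega)
  have h6 : 2 * (K + 2) - 4 = 2 * K := by omega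
  rw [h6]
  calc ((N ^ (2 * K) : ℕ) : ℕ∞) ≤ (((4 * K * n) ^ (2 * K) : ℕ) : ℕ∞) := by
        exact_mod_cast Nat.pow_le_pow_left h4 _
    _ = (((4 * K) ^ (2 * K) : ℕ) : ℕ∞) * (((n * n) ^ K : ℕ) : ℕ∞) := by
        rw [← Nat.cast_mul]
        congr 1
        rw [mul_pow, pow_mul n 2 K, sq]
    _ ≤ (((4 * K) ^ (2 * K) : ℕ) : ℕ∞) * maxCells κ b (K + 2) N := by
        gcongr

end Pool.Agent.W_MP_cfb63a_co
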