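import Pool.Agent.W_MP_cfb63a_co.Defs

/-!
# The self-similar family of half-hyperplanes
-/

set_option autoImplicit false

open Set

namespace Pool.Agent.W_MP_cfb63a_co

/-- the coordinate with number `k` -/
def co {m : ℕ} (k : ℕ) (x : Fin m → ℝ) : ℝ := if h : k < m then x ⟨k, h⟩ else 0

theorem co_pt {m : ℕ} (k : ℕ) (hk : k < m) (x : Fin m → ℝ) (t : ℝ) : co k (pt x t) = co k x := by
  have h1 : k < m + 1 := by omega
  rw [co, co, dif_pos h1, dif_pos hk]
  exact pt_castSucc x t ⟨k, hk⟩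

theorem co_pt_last {m : ℕ} (x : Fin m → ℝ) (t : ℝ) : co m (pt x t) = t := by
  rw [co, dif_pos (Nat.lt_succ_self m)]
  exact pt_last x t

theorem co_proj {m : ℕ} (k : ℕ) (hk : k < m) (y : Fin (m + 1) → ℝ) : co k (proj y) = co k y := by
  have h1 : k < m + 1 := by omega
  rw [co, co, dif_pos h1, dif_pos hk]
  rfl

theorem continuous_co {m : ℕ} (k : ℕ) : Continuous (co k : (Fin m → ℝ) → ℝ) := by
  unfold co
  by_cases h : k < m
  · simp only [h, dif_pos]
    exact continuous_apply _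
  · simp only [h, dif_neg, not_false_iff]
    exact continuous_const

/-- `x` lies on the patch with coordinate `c` and digit `i` -/
def Hit (n : ℕ) (s : ℝ) : (m : ℕ) → ℝ → (Fin m → ℝ) → ℕ → ℕ → Prop
  | 0, _, _, _, _ => False
  | (m + 1), w, x, c, i => 2 ≤ m ∧
      ((c = m ∧ s * x (Fin.last m) = n - i ∧ (i : ℝ) ≤ n * w) ∨
        Hit n s m (n * w + s * x (Fin.last m) - n) (proj x) c i)

theorem hit_pt (n : ℕ) (s : ℝ) (m : ℕ) (w : ℝ) (x : Fin m → ℝ) (t : ℝ) (c i : ℕ) :
    Hit n s (m + 1) w (pt x t) c i ↔ 2 ≤ m ∧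
      ((c = m ∧ s * t = n - i ∧ (i : ℝ) ≤ n * w) ∨ Hit n s m (n * w + s * t - n) x c i) := by
  simp only [Hit, pt_last, proj_pt]

theorem hit_mono (n : ℕ) (s : ℝ) (m : ℕ) : ∀ (w w' : ℝ) (x : Fin m → ℝ) (c i : ℕ), w ≤ w' →
    Hit n s m w x c i → Hit n s m w' x c i := by
  induction m with
  | zero => intro w w' x c i _ h; exact h
  | succ m ih =>
    intro w w' x c i hw h
    have hn : (n : ℝ) * w ≤ n * w' := mul_le_mul_of_nonneg_left hw (Nat.cast_nonneg n)
    refine ⟨h.1, ?_⟩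
    rcases h.2 with h2 | h2
    · exact Or.inl ⟨h2.1, h2.2.1, h2.2.2.trans hn⟩
    · exact Or.inr (ih _ _ _ _ _ (by linarith) h2)

theorem hit_c (n : ℕ) (s : ℝ) (m : ℕ) : ∀ (w : ℝ) (x : Fin m → ℝ) (c i : ℕ),
    Hit n s m w x c i → 2 ≤ c ∧ c < m := by
  induction m with
  | zero => intro w x c i h; exact h.elim
  | succ m ih =>
    intro w x c i h
    rcases h.2 with h2 | h2
    · have := h.1; have := h2.1; omega
    · have := ih _ _ _ _ h2; omega

theorem isClosed_hit (n : ℕ) (s : ℝ) {X : Type*} [TopologicalSpace X] (m : ℕ) :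
    ∀ (g : X → ℝ) (h : X → (Fin m → ℝ)) (c i : ℕ), Continuous g → Continuous h →
      IsClosed {z | Hit n s m (g z) (h z) c i} := by
  induction m with
  | zero => intro g h c i _ _; simp only [Hit, ofPred_false]; exact isClosed_empty
  | succ m ih =>
    intro g h c i hg hh
    have hl : Continuous fun z => h z (Fin.last m) := (continuous_apply _).comp hh
    have h1 : IsClosed {z | c = m ∧ s * h z (Fin.last m) = n - i ∧ (i : ℝ) ≤ n * g z} := by
      refine IsClosed.inter ?_ (IsClosed.inter ?_ ?_)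
      · exact isClosed_const
      · exact isClosed_eq (continuous_const.mul hl) continuous_const
      · exact isClosed_le continuous_const (continuous_const.mul hg)
    have h2 := ih (fun z => n * g z + s * h z (Fin.last m) - n) (fun z => proj (h z)) c i
      (((continuous_const.mul hg).add (continuous_const.mul hl)).sub continuous_const)
      (continuous_proj.comp hh)
    exact IsClosed.inter isClosed_const (h1.union h2)

/-- `x` lies on some patch -/
def HitAny (n : ℕ) (s : ℝ) (m : ℕ) (w : ℝ) (x : Fin m → ℝ) : Prop :=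
  ∃ c i, i < n ∧ Hit n s m w x c i

theorem hitAny_mono {n : ℕ} {s : ℝ} {m : ℕ} {w w' : ℝ} {x : Fin m → ℝ} (hw : w ≤ w')
    (h : HitAny n s m w x) : HitAny n s m w' x := by
  obtain ⟨c, i, hi, h⟩ := h
  exact ⟨c, i, hi, hit_mono n s m w w' x c i hw h⟩

theorem isClosed_hitAny (n : ℕ) (s : ℝ) {X : Type*} [TopologicalSpace X] (m : ℕ)
    (g : X → ℝ) (h : X → (Fin m → ℝ)) (hg : Continuous g) (hh : Continuous h) :
    IsClosed {z | HitAny n s m (g z) (h z)} := by
  have : {z | HitAny n s m (g z) (h z)} =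
      ⋃ c ∈ Finset.range m, ⋃ i ∈ Finset.range n, {z | Hit n s m (g z) (h z) c i} := by
    ext z
    simp only [HitAny, mem_ofPred_eq, mem_iUnion, Finset.mem_range, exists_prop]
    constructor
    · rintro ⟨c, i, hi, h⟩
      exact ⟨c, (hit_c _ _ _ _ _ _ _ h).2, i, hi, h⟩
    · rintro ⟨c, _, i, hi, h⟩
      exact ⟨c, i, hi, h⟩
  rw [this]
  refine Set.Finite.isClosed_biUnion (Finset.finite_toSet _) fun c _ => ?_
  exact Set.Finite.isClosed_biUnion (Finset.finite_toSet _) fun i _ =>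
    isClosed_hit n s m g h c i hg hh

/-- no patch meets the central plane -/
theorem not_hitAny_central (n : ℕ) (s : ℝ) (m : ℕ) : ∀ (w : ℝ) (x : Fin m → ℝ),
    (∀ k, 2 ≤ k → co k x = 0) → ¬ HitAny n s m w x := by
  induction m with
  | zero => rintro w x _ ⟨c, i, _, h⟩; exact h
  | succ m ih =>
    rintro w x hx ⟨c, i, hi, h⟩
    have h2 := h.1
    have hl : x (Fin.last m) = 0 := by
      have := hx m h2
      rw [co, dif_pos (Nat.lt_succ_self m)] at this
      exact this
    have hi' : (i : ℝ) < n := by exact_mod_cast hi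
    rcases h.2 with h3 | h3
    · have := h3.2.1
      rw [hl, mul_zero] at this
      linarith
    · refine ih _ (proj x) ?_ ⟨c, i, hi, h3⟩
      intro k hk
      by_cases hkm : k < m
      · rw [co_proj k hkm]; exact hx k hk
      · rw [co, dif_neg hkm]

/-- increasing affine function -/
def Aff (φ : ℝ → ℝ) : Prop := ∃ A B : ℝ, 0 < A ∧ ∀ a, φ a = A * a + B

theorem Aff.continuous {φ : ℝ → ℝ} (h : Aff φ) : Continuous φ := by
  obtain ⟨A, B, _, h⟩ := h
  have : φ = fun a => A * a + B := funext h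
  rw [this]
  fun_prop

theorem Aff.strictMono {φ : ℝ → ℝ} (h : Aff φ) : StrictMono φ := by
  obtain ⟨A, B, hA, h⟩ := h
  intro a b hab
  rw [h, h]
  nlinarith

theorem Aff.surj {φ : ℝ → ℝ} (h : Aff φ) (y : ℝ) : ∃ a, φ a = y := by
  obtain ⟨A, B, hA, h⟩ := h
  refine ⟨(y - B) / A, ?_⟩
  rw [h]
  field_simp
  ring

theorem Aff.next {φ : ℝ → ℝ} (h : Aff φ) {n : ℕ} (hn : 0 < n) (i : ℕ) :
    Aff (fun a => n * φ a - i) := by
  obtain ⟨A, B, hA, h⟩ := h
  refine ⟨n * A, n * B - i, by positivity, fun a => ?_⟩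
  simp only [h]
  ring

/-- the good region -/
def G (n m : ℕ) (φ ψ : ℝ → ℝ) : Set (Fin m → ℝ) :=
  {x | (0 < φ (co 0 x) ∧ φ (co 0 x) < 1) ∧ (0 < ψ (co 1 x) ∧ ψ (co 1 x) < 1) ∧
    ¬ HitAny n 1 m (φ (co 0 x)) x ∧ ¬ HitAny n (-1) m (ψ (co 1 x)) x}

theorem isOpen_G (n m : ℕ) {φ ψ : ℝ → ℝ} (hφ : Continuous φ) (hψ : Continuous ψ) :
    IsOpen (G n m φ ψ) := by
  have h0 : Continuous fun x : Fin m → ℝ => φ (co 0 x) := hφ.comp (continuous_co 0)
  have h1 : Continuous fun x : Fin m → ℝ => ψ (co 1 x) := hψ.comp (continuous_co 1)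
  refine IsOpen.inter ((isOpen_lt continuous_const h0).inter (isOpen_lt h0 continuous_const)) ?_
  refine IsOpen.inter ((isOpen_lt continuous_const h1).inter (isOpen_lt h1 continuous_const)) ?_
  refine IsOpen.inter ?_ ?_
  · exact (isClosed_hitAny n 1 m _ _ h0 continuous_id).isOpen_compl
  · exact (isClosed_hitAny n (-1) m _ _ h1 continuous_id).isOpen_compl

end Pool.Agent.W_MP_cfb63a_co
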