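import Pool.Agent.W_MP_cfb63a_co.Model

/-!
# One step of the induction
-/

set_option autoImplicit false

open Set

namespace Pool.Agent.W_MP_cfb63a_co

/-- The data of a region during the recursion. -/
structure Inv (n : ℕ) {ι : Type} (L : Bool → ℕ → ℕ → ι) (m : ℕ) (D : Set (Fin m → ℝ))
    (lab : (Fin m → ℝ) → Set ι) (φ ψ : ℝ → ℝ) (P Q : ℝ → Set ι) : Prop where
  affφ : Aff φ
  affψ : Aff ψ
  sub : D ⊆ G n m φ ψ
  sat : ∀ S : Set (Fin m → ℝ), S ⊆ G n m φ ψ → IsPreconnected S → (S ∩ D).Nonempty → S ⊆ D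
  cen : ∀ x : Fin m → ℝ, 0 < φ (co 0 x) → φ (co 0 x) < 1 → 0 < ψ (co 1 x) → ψ (co 1 x) < 1 →
    (∀ k, 2 ≤ k → co k x = 0) → x ∈ D
  hlab : ∀ y ∈ closure D, ∀ γ, γ ∈ lab y ↔ γ ∈ P (co 0 y) ∨ γ ∈ Q (co 1 y) ∨
    (∃ c i, i < n ∧ γ = L true c i ∧ Hit n 1 m (φ (co 0 y)) y c i) ∨
    (∃ c i, i < n ∧ γ = L false c i ∧ Hit n (-1) m (ψ (co 1 y)) y c i)
  Pc : ∀ a a', 0 < φ a → φ a < 1 → 0 < φ a' → φ a' < 1 → P a = P a'
  Qc : ∀ a a', 0 < ψ a → ψ a < 1 → 0 < ψ a' → ψ a' < 1 → Q a = Q a'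
  Pa : ∀ a s c i, 2 ≤ c → c < m → i < n → L s c i ∉ P a
  Qa : ∀ a s c i, 2 ≤ c → c < m → i < n → L s c i ∉ Q a

/-- The labels of the patches are different. -/
def Inj {ι : Type} (n M : ℕ) (L : Bool → ℕ → ℕ → ι) : Prop :=
  ∀ s c i s' c' i', 2 ≤ c → c < M → i < n → 2 ≤ c' → c' < M → i' < n →
    L s c i = L s' c' i' → s = s' ∧ c = c' ∧ i = i'

/-! ### General lemmas on open regions -/

section General

variable {m : ℕ} {D : Set (Fin (m + 1) → ℝ)}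

theorem continuous_vert (x : Fin m → ℝ) : Continuous fun t : ℝ => pt x t :=
  continuous_pt.comp (Continuous.prodMk_right x)

theorem continuous_hor (t : ℝ) : Continuous fun x : Fin m → ℝ => pt x t :=
  continuous_pt.comp (Continuous.prodMk_left t)

theorem mem_frontier_of_isOpen (hD : IsOpen D) {y : Fin (m + 1) → ℝ} :
    y ∈ frontier D ↔ y ∈ closure D ∧ y ∉ D := by
  rw [frontier, hD.interior_eq]; rfl

theorem IsTop.mem_frontier (hD : IsOpen D) {x : Fin m → ℝ} {t β : ℝ} (h : IsTop D x t β) :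
    pt x β ∈ frontier D := by
  rw [mem_frontier_of_isOpen hD]
  refine ⟨?_, h.2.2⟩
  have h1 : β ∈ closure (Ico t β) := by
    rw [closure_Ico h.1.ne]
    exact ⟨h.1.le, le_rfl⟩
  exact map_mem_closure (continuous_vert x) h1 (fun s hs => h.2.1 s hs)

theorem IsBot.mem_frontier (hD : IsOpen D) {x : Fin m → ℝ} {t α : ℝ} (h : IsBot D x t α) :
    pt x α ∈ frontier D := by
  rw [mem_frontier_of_isOpen hD]
  refine ⟨?_, h.2.2⟩
  have h1 : α ∈ closure (Ioc α t) := by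
    rw [closure_Ioc h.1.ne]
    exact ⟨le_rfl, h.1.le⟩
  exact map_mem_closure (continuous_vert x) h1 (fun s hs => h.2.1 s hs)

theorem exists_isTop (hD : IsOpen D) {x : Fin m → ℝ} {t s : ℝ} (ht : pt x t ∈ D) (hts : t ≤ s)
    (hs : pt x s ∉ D) : ∃ β, β ≤ s ∧ IsTop D x t β := by
  set K : Set ℝ := {r | t ≤ r ∧ pt x r ∉ D} with hK
  have hKc : IsClosed K := by
    refine IsClosed.inter isClosed_Ici ?_
    exact (hD.preimage (continuous_vert x)).isClosed_compl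
  have hKb : BddBelow K := ⟨t, fun r hr => hr.1⟩
  have hKn : K.Nonempty := ⟨s, hts, hs⟩
  have hmem := hKc.csInf_mem hKn hKb
  refine ⟨sInf K, csInf_le hKb ⟨hts, hs⟩, ?_, ?_, hmem.2⟩
  · rcases hmem.1.lt_or_eq with h | h
    · exact h
    · exact absurd ht (h ▸ hmem.2)
  · intro r hr
    by_contra hn
    exact absurd (csInf_le hKb (⟨hr.1, hn⟩ : r ∈ K)) (not_le.2 hr.2)

theorem exists_isBot (hD : IsOpen D) {x : Fin m → ℝ} {t s : ℝ} (ht : pt x t ∈ D) (hts : s ≤ t)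
    (hs : pt x s ∉ D) : ∃ α, s ≤ α ∧ IsBot D x t α := by
  set K : Set ℝ := {r | r ≤ t ∧ pt x r ∉ D} with hK
  have hKc : IsClosed K := by
    refine IsClosed.inter isClosed_Iic ?_
    exact (hD.preimage (continuous_vert x)).isClosed_compl
  have hKb : BddAbove K := ⟨t, fun r hr => hr.1⟩
  have hKn : K.Nonempty := ⟨s, hts, hs⟩
  have hmem := hKc.csSup_mem hKn hKb
  refine ⟨sSup K, le_csSup hKb ⟨hts, hs⟩, ?_, ?_, hmem.2⟩
  · rcases hmem.1.lt_or_eq with h | h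
    · exact h
    · exact absurd ht (h ▸ hmem.2)
  · intro r hr
    by_contra hn
    exact absurd (le_csSup hKb (⟨hr.2, hn⟩ : r ∈ K)) (not_le.2 hr.1)

end General

section Region

variable {n m : ℕ} {ι : Type} {L : Bool → ℕ → ℕ → ι} {D : Set (Fin m → ℝ)}
  {lab : (Fin m → ℝ) → Set ι} {φ ψ : ℝ → ℝ} {P Q : ℝ → Set ι}

theorem Inv.isOpen (h : Inv n L m D lab φ ψ P Q) : IsOpen D := by
  rw [Metric.isOpen_iff]
  intro p hp
  obtain ⟨ε, hε, hb⟩ := Metric.isOpen_iff.1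
    (isOpen_G n m h.affφ.continuous h.affψ.continuous) p (h.sub hp)
  exact ⟨ε, hε, h.sat _ hb (convex_ball p ε).isPreconnected ⟨p, Metric.mem_ball_self hε, hp⟩⟩

theorem Inv.mem_of_closure (h : Inv n L m D lab φ ψ P Q) {p : Fin m → ℝ}
    (hp : p ∈ G n m φ ψ) (hc : p ∈ closure D) : p ∈ D := by
  obtain ⟨ε, hε, hb⟩ := Metric.isOpen_iff.1
    (isOpen_G n m h.affφ.continuous h.affψ.continuous) p hp
  obtain ⟨q, hq, hqD⟩ := mem_closure_iff.1 hc _ Metric.isOpen_ball (Metric.mem_ball_self hε)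
  exact h.sat _ hb (convex_ball p ε).isPreconnected ⟨q, hq, hqD⟩ (Metric.mem_ball_self hε)

end Region

section Step

variable {n m : ℕ} {ι : Type} {L : Bool → ℕ → ℕ → ι} {D : Set (Fin (m + 1) → ℝ)}
  {lab : (Fin (m + 1) → ℝ) → Set ι} {φ ψ : ℝ → ℝ} {P Q : ℝ → Set ι} {i j : ℕ}

/-- the new parameter function -/
def nx (n i : ℕ) (φ : ℝ → ℝ) : ℝ → ℝ := fun a => n * φ a - i

/-- the vertical extent of the central box -/
def In (n i j : ℕ) : Set ℝ := Ioo (-((n : ℝ) - j)) ((n : ℝ) - i)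

theorem cast_le_sub {n i : ℕ} (hi : i < n) : (1 : ℝ) ≤ (n : ℝ) - i := by
  have : ((i + 1 : ℕ) : ℝ) ≤ (n : ℝ) := by exact_mod_cast hi
  push_cast at this
  linarith

theorem zero_mem_In (hi : i < n) (hj : j < n) : (0 : ℝ) ∈ In n i j := by
  have h1 := cast_le_sub hi
  have h2 := cast_le_sub hj
  exact ⟨by linarith, by linarith⟩

theorem strip_of_next {φ : ℝ → ℝ} {a : ℝ} (hi : i < n) (h0 : 0 < nx n i φ a)
    (h1 : nx n i φ a < 1) : 0 < φ a ∧ φ a < 1 := by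
  have hn : (0 : ℝ) < n := by exact_mod_cast (Nat.zero_lt_of_lt hi)
  have h2 := cast_le_sub hi
  simp only [nx] at h0 h1
  have hi0 : (0 : ℝ) ≤ i := Nat.cast_nonneg i
  constructor
  · by_contra h; push Not at h
    have : (n : ℝ) * φ a ≤ 0 := mul_nonpos_of_nonneg_of_nonpos hn.le h
    linarith
  · by_contra h; push Not at h
    have : (n : ℝ) * 1 ≤ n * φ a := mul_le_mul_of_nonneg_left h hn.le
    linarith

theorem le_of_lt_next {φ : ℝ → ℝ} {a : ℝ} {i' : ℕ} (h1 : nx n i φ a < 1)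
    (h : (i' : ℝ) ≤ n * φ a) : i' ≤ i := by
  simp only [nx] at h1
  have : (i' : ℝ) < i + 1 := by linarith
  have : i' < i + 1 := by exact_mod_cast this
  omega

/-- the slab above the good region of the next step is good -/
theorem slab_sub_G (hm : 2 ≤ m) (hi : i < n) (hj : j < n) {x : Fin m → ℝ}
    (hx : x ∈ G n m (nx n i φ) (nx n j ψ)) {t : ℝ} (ht : t ∈ In n i j) :
    pt x t ∈ G n (m + 1) φ ψ := by
  obtain ⟨⟨ha0, ha1⟩, ⟨hb0, hb1⟩, hT, hB⟩ := hx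
  obtain ⟨ht0, ht1⟩ := ht
  have hs1 := strip_of_next hi ha0 ha1
  have hs2 := strip_of_next hj hb0 hb1
  refine ⟨?_, ?_, ?_, ?_⟩
  · rw [co_pt 0 (by omega)]; exact hs1
  · rw [co_pt 1 (by omega)]; exact hs2
  · rw [co_pt 0 (by omega)]
    rintro ⟨c, i', hi', h⟩
    rw [hit_pt] at h
    rcases h.2 with h2 | h2
    · have h3 := le_of_lt_next ha1 h2.2.2
      have h4 : (i' : ℝ) ≤ i := by exact_mod_cast h3
      have h5 := h2.2.1
      linarith
    · exact hT ⟨c, i', hi', hit_mono _ _ _ _ _ _ _ _ (by simp only [nx]; linarith) h2⟩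
  · rw [co_pt 1 (by omega)]
    rintro ⟨c, i', hi', h⟩
    rw [hit_pt] at h
    rcases h.2 with h2 | h2
    · have h3 := le_of_lt_next hb1 h2.2.2
      have h4 : (i' : ℝ) ≤ j := by exact_mod_cast h3
      have h5 := h2.2.1
      linarith
    · exact hB ⟨c, i', hi', hit_mono _ _ _ _ _ _ _ _ (by simp only [nx]; linarith) h2⟩

theorem top_not_G (hm : 2 ≤ m) (hi : i < n) {x : Fin m → ℝ}
    (hx : 0 ≤ nx n i φ (co 0 x)) : pt x ((n : ℝ) - i) ∉ G n (m + 1) φ ψ := by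
  intro h
  apply h.2.2.1
  rw [co_pt 0 (by omega)]
  simp only [nx] at hx
  refine ⟨m, i, hi, (hit_pt _ _ _ _ _ _ _ _).2 ⟨hm, Or.inl ⟨rfl, by ring, by linarith⟩⟩⟩

theorem bot_not_G (hm : 2 ≤ m) (hj : j < n) {x : Fin m → ℝ}
    (hx : 0 ≤ nx n j ψ (co 1 x)) : pt x (-((n : ℝ) - j)) ∉ G n (m + 1) φ ψ := by
  intro h
  apply h.2.2.2
  rw [co_pt 1 (by omega)]
  simp only [nx] at hx
  refine ⟨m, j, hj, (hit_pt _ _ _ _ _ _ _ _).2 ⟨hm, Or.inl ⟨rfl, by ring, by linarith⟩⟩⟩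

theorem Inv.seg (h : Inv n L (m + 1) D lab φ ψ P Q) (hm : 2 ≤ m) (hi : i < n) (hj : j < n)
    {x : Fin m → ℝ} (hx : x ∈ G n m (nx n i φ) (nx n j ψ)) {t₀ : ℝ} (ht₀ : t₀ ∈ In n i j)
    (hD : pt x t₀ ∈ D) {t : ℝ} (ht : t ∈ In n i j) : pt x t ∈ D := by
  have hS : IsPreconnected (slab {x} (In n i j)) :=
    isPreconnected_slab isPreconnected_singleton isPreconnected_Ioo
  refine h.sat (slab {x} (In n i j)) ?_ hS ⟨pt x t₀, pt_mem_slab.2 ⟨rfl, ht₀⟩, hD⟩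
    (pt_mem_slab.2 ⟨rfl, ht⟩)
  intro y hy
  rw [← pt_proj y]
  have h1 : proj y = x := hy.1
  rw [h1]
  exact slab_sub_G hm hi hj hx hy.2

theorem Inv.top_closure (h : Inv n L (m + 1) D lab φ ψ P Q) (hm : 2 ≤ m) (hi : i < n)
    (hj : j < n) {x : Fin m → ℝ} (hx : x ∈ G n m (nx n i φ) (nx n j ψ))
    (hD : pt x 0 ∈ D) : pt x ((n : ℝ) - i) ∈ closure D := by
  have h0 := zero_mem_In hi hj
  have h1 : ((n : ℝ) - i) ∈ closure (In n i j) := by
    rw [In, closure_Ioo (h0.1.trans h0.2).ne]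
    exact ⟨(h0.1.trans h0.2).le, le_rfl⟩
  exact map_mem_closure (continuous_vert x) h1 (fun s hs => h.seg hm hi hj hx h0 hD hs)

theorem Inv.bot_closure (h : Inv n L (m + 1) D lab φ ψ P Q) (hm : 2 ≤ m) (hi : i < n)
    (hj : j < n) {x : Fin m → ℝ} (hx : x ∈ G n m (nx n i φ) (nx n j ψ))
    (hD : pt x 0 ∈ D) : pt x (-((n : ℝ) - j)) ∈ closure D := by
  have h0 := zero_mem_In hi hj
  have h1 : (-((n : ℝ) - j)) ∈ closure (In n i j) := by
    rw [In, closure_Ioo (h0.1.trans h0.2).ne]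
    exact ⟨le_rfl, (h0.1.trans h0.2).le⟩
  exact map_mem_closure (continuous_vert x) h1 (fun s hs => h.seg hm hi hj hx h0 hD hs)

/-- the label at the top of the central box -/
theorem Inv.lab_top (h : Inv n L (m + 1) D lab φ ψ P Q) (hm : 2 ≤ m) (hi : i < n)
    (hj : j < n) {x : Fin m → ℝ} (hx : x ∈ G n m (nx n i φ) (nx n j ψ))
    (hc : pt x ((n : ℝ) - i) ∈ closure D) (γ : ι) :
    γ ∈ lab (pt x ((n : ℝ) - i)) ↔ γ ∈ P (co 0 x) ∨ γ ∈ Q (co 1 x) ∨ γ = L true m i := by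
  obtain ⟨⟨ha0, ha1⟩, ⟨hb0, hb1⟩, hT, hB⟩ := hx
  have hi1 := cast_le_sub hi
  have hj1 := cast_le_sub hj
  rw [h.hlab _ hc, co_pt 0 (by omega), co_pt 1 (by omega)]
  constructor
  · rintro (h1 | h1 | ⟨c, i', hi', rfl, h1⟩ | ⟨c, i', hi', rfl, h1⟩)
    · exact Or.inl h1
    · exact Or.inr (Or.inl h1)
    · right; right
      rw [hit_pt] at h1
      rcases h1.2 with h2 | h2
      · have h3 : (i' : ℝ) = i := by linarith [h2.2.1]
        have h4 : i' = i := by exact_mod_cast h3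
        rw [h4, h2.1]
      · exact absurd ⟨c, i', hi', hit_mono _ _ _ _ _ _ _ _ (by simp only [nx]; linarith) h2⟩ hT
    · exfalso
      rw [hit_pt] at h1
      have hi'1 := cast_le_sub hi'
      rcases h1.2 with h2 | h2
      · linarith [h2.2.1]
      · exact hB ⟨c, i', hi', hit_mono _ _ _ _ _ _ _ _ (by simp only [nx]; linarith) h2⟩
  · rintro (h1 | h1 | rfl)
    · exact Or.inl h1
    · exact Or.inr (Or.inl h1)
    · right; right; left
      simp only [nx] at ha0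
      exact ⟨m, i, hi, rfl, (hit_pt _ _ _ _ _ _ _ _).2 ⟨hm, Or.inl ⟨rfl, by ring, by linarith⟩⟩⟩

/-- the label at the bottom of the central box -/
theorem Inv.lab_bot (h : Inv n L (m + 1) D lab φ ψ P Q) (hm : 2 ≤ m) (hi : i < n)
    (hj : j < n) {x : Fin m → ℝ} (hx : x ∈ G n m (nx n i φ) (nx n j ψ))
    (hc : pt x (-((n : ℝ) - j)) ∈ closure D) (γ : ι) :
    γ ∈ lab (pt x (-((n : ℝ) - j))) ↔ γ ∈ P (co 0 x) ∨ γ ∈ Q (co 1 x) ∨ γ = L false m j := by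
  obtain ⟨⟨ha0, ha1⟩, ⟨hb0, hb1⟩, hT, hB⟩ := hx
  have hi1 := cast_le_sub hi
  have hj1 := cast_le_sub hj
  rw [h.hlab _ hc, co_pt 0 (by omega), co_pt 1 (by omega)]
  constructor
  · rintro (h1 | h1 | ⟨c, i', hi', rfl, h1⟩ | ⟨c, i', hi', rfl, h1⟩)
    · exact Or.inl h1
    · exact Or.inr (Or.inl h1)
    · exfalso
      rw [hit_pt] at h1
      have hi'1 := cast_le_sub hi'
      rcases h1.2 with h2 | h2
      · linarith [h2.2.1]
      · exact hT ⟨c, i', hi', hit_mono _ _ _ _ _ _ _ _ (by simp only [nx]; linarith) h2⟩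
    · right; right
      rw [hit_pt] at h1
      rcases h1.2 with h2 | h2
      · have h3 : (i' : ℝ) = j := by linarith [h2.2.1]
        have h4 : i' = j := by exact_mod_cast h3
        rw [h4, h2.1]
      · exact absurd ⟨c, i', hi', hit_mono _ _ _ _ _ _ _ _ (by simp only [nx]; linarith) h2⟩ hB
  · rintro (h1 | h1 | rfl)
    · exact Or.inl h1
    · exact Or.inr (Or.inl h1)
    · right; right; right
      simp only [nx] at hb0
      exact ⟨m, j, hj, rfl, (hit_pt _ _ _ _ _ _ _ _).2 ⟨hm, Or.inl ⟨rfl, by ring, by linarith⟩⟩⟩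

end Step

end Pool.Agent.W_MP_cfb63a_co
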