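import Pool.Agent.W_MP_cfb63a_co.Step

/-!
# Regularity of the top and the bottom of the central box, and the subcell
-/

set_option autoImplicit false

open Set

namespace Pool.Agent.W_MP_cfb63a_co

variable {κ : Bool} {n m : ℕ} {ι : Type} {L : Bool → ℕ → ℕ → ι} {D : Set (Fin (m + 1) → ℝ)}
  {lab : (Fin (m + 1) → ℝ) → Set ι} {φ ψ : ℝ → ℝ} {P Q : ℝ → Set ι} {i j : ℕ}

theorem Inv.regular_top (h : Inv n L (m + 1) D lab φ ψ P Q) (hm : 2 ≤ m) (hi : i < n)
    (hj : j < n) {x : Fin m → ℝ} (hx : x ∈ G n m (nx n i φ) (nx n j ψ))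
    (hD : pt x 0 ∈ D) : Regular κ D lab (pt x ((n : ℝ) - i)) := by
  have hn : 0 < n := Nat.zero_lt_of_lt hi
  have hi1 := cast_le_sub hi
  have hj1 := cast_le_sub hj
  have hDo := h.isOpen
  set W : Set ((Fin m → ℝ) × ℝ) := {z | z.1 ∈ G n m (nx n i φ) (nx n j ψ) ∧
    ¬ HitAny n 1 m (n * φ (co 0 z.1) + z.2 - n) z.1 ∧ pt z.1 0 ∈ D} with hW
  have hWo : IsOpen W := by
    refine IsOpen.inter ?_ (IsOpen.inter ?_ ?_)
    · exact (isOpen_G n m (h.affφ.next hn i).continuous (h.affψ.next hn j).continuous).preimage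
        continuous_fst
    · refine (isClosed_hitAny n 1 m _ _ ?_ continuous_fst).isOpen_compl
      have h1 : Continuous fun z : (Fin m → ℝ) × ℝ => φ (co 0 z.1) :=
        h.affφ.continuous.comp ((continuous_co 0).comp continuous_fst)
      exact ((continuous_const.mul h1).add continuous_snd).sub continuous_const
    · exact hDo.preimage ((continuous_hor 0).comp continuous_fst)
  have hxW : (x, (n : ℝ) - i) ∈ W := by
    refine ⟨hx, ?_, hD⟩
    have : (n : ℝ) * φ (co 0 x) + ((n : ℝ) - i) - n = nx n i φ (co 0 x) := by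
      simp only [nx]; ring
    change ¬ HitAny n 1 m ((n : ℝ) * φ (co 0 x) + ((n : ℝ) - i) - n) x
    rw [this]
    exact hx.2.2.1
  obtain ⟨U, J1, hU, hJ1, hxU, hxJ, hUJ⟩ := isOpen_prod_iff.1 hWo x ((n : ℝ) - i) hxW
  have hUG : ∀ x' ∈ U, x' ∈ G n m (nx n i φ) (nx n j ψ) ∧ pt x' 0 ∈ D := by
    intro x' hx'
    have := hUJ (⟨hx', hxJ⟩ : (x', (n : ℝ) - i) ∈ U ×ˢ J1)
    exact ⟨this.1, this.2.2⟩
  refine ⟨U, J1 ∩ Ioo ((n : ℝ) - i - 1) ((n : ℝ) - i + 1), fun _ => (n : ℝ) - i, hU,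
    hJ1.inter isOpen_Ioo, ?_, ?_, contDiffOn_const, ?_, ?_, ?_⟩
  · rw [proj_pt]; exact hxU
  · rw [pt_last]; exact ⟨hxJ, by constructor <;> linarith⟩
  · intro x' _; exact ⟨hxJ, by constructor <;> linarith⟩
  · rintro x' hx' t ⟨htJ, ht0, ht1⟩
    obtain ⟨hx'G, hx'D⟩ := hUG x' hx'
    rw [mem_frontier_of_isOpen hDo]
    constructor
    · rintro ⟨hcl, hnD⟩
      by_contra hne
      rcases lt_or_gt_of_ne hne with hlt | hgt
      · exact hnD (h.seg hm hi hj hx'G (zero_mem_In hi hj) hx'D ⟨by linarith, hlt⟩)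
      · apply hnD
        apply h.mem_of_closure _ hcl
        obtain ⟨⟨ha0, ha1⟩, ⟨hb0, hb1⟩, hT, hB⟩ := hx'G
        have hs1 := strip_of_next hi ha0 ha1
        have hs2 := strip_of_next hj hb0 hb1
        refine ⟨?_, ?_, ?_, ?_⟩
        · rw [co_pt 0 (by omega)]; exact hs1
        · rw [co_pt 1 (by omega)]; exact hs2
        · rw [co_pt 0 (by omega)]
          rintro ⟨c, i', hi', h1⟩
          rw [hit_pt] at h1
          rcases h1.2 with h2 | h2
          · have h3 : (n : ℝ) - i' = t := by linarith [h2.2.1]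
            have h4 : (i' : ℝ) < i := by linarith
            have h5 : i' + 1 ≤ i := by exact_mod_cast h4
            have h6 : (i' : ℝ) + 1 ≤ i := by exact_mod_cast h5
            linarith
          · have h3 := (hUJ (⟨hx', htJ⟩ : (x', t) ∈ U ×ˢ J1)).2.1
            apply h3
            refine ⟨c, i', hi', ?_⟩
            rw [one_mul] at h2
            exact h2
        · rw [co_pt 1 (by omega)]
          rintro ⟨c, i', hi', h1⟩
          rw [hit_pt] at h1
          have hi'1 := cast_le_sub hi'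
          rcases h1.2 with h2 | h2
          · linarith [h2.2.1]
          · exact hB ⟨c, i', hi', hit_mono _ _ _ _ _ _ _ _ (by simp only [nx]; linarith) h2⟩
    · rintro rfl
      refine ⟨h.top_closure hm hi hj hx'G hx'D, fun hmem => ?_⟩
      exact top_not_G hm hi hx'G.1.1.le (h.sub hmem)
  · intro _ x' hx'
    obtain ⟨hx'G, hx'D⟩ := hUG x' hx'
    ext γ
    rw [h.lab_top hm hi hj hx'G (h.top_closure hm hi hj hx'G hx'D),
      h.lab_top hm hi hj hx (h.top_closure hm hi hj hx hD)]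
    have s1 := strip_of_next hi hx'G.1.1 hx'G.1.2
    have s2 := strip_of_next hi hx.1.1 hx.1.2
    have s3 := strip_of_next hj hx'G.2.1.1 hx'G.2.1.2
    have s4 := strip_of_next hj hx.2.1.1 hx.2.1.2
    rw [h.Pc _ _ s1.1 s1.2 s2.1 s2.2, h.Qc _ _ s3.1 s3.2 s4.1 s4.2]

theorem Inv.regular_bot (h : Inv n L (m + 1) D lab φ ψ P Q) (hm : 2 ≤ m) (hi : i < n)
    (hj : j < n) {x : Fin m → ℝ} (hx : x ∈ G n m (nx n i φ) (nx n j ψ))
    (hD : pt x 0 ∈ D) : Regular κ D lab (pt x (-((n : ℝ) - j))) := by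
  have hn : 0 < n := Nat.zero_lt_of_lt hi
  have hi1 := cast_le_sub hi
  have hj1 := cast_le_sub hj
  have hDo := h.isOpen
  set W : Set ((Fin m → ℝ) × ℝ) := {z | z.1 ∈ G n m (nx n i φ) (nx n j ψ) ∧
    ¬ HitAny n (-1) m (n * ψ (co 1 z.1) + -1 * z.2 - n) z.1 ∧ pt z.1 0 ∈ D} with hW
  have hWo : IsOpen W := by
    refine IsOpen.inter ?_ (IsOpen.inter ?_ ?_)
    · exact (isOpen_G n m (h.affφ.next hn i).continuous (h.affψ.next hn j).continuous).preimage
        continuous_fst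
    · refine (isClosed_hitAny n (-1) m _ _ ?_ continuous_fst).isOpen_compl
      have h1 : Continuous fun z : (Fin m → ℝ) × ℝ => ψ (co 1 z.1) :=
        h.affψ.continuous.comp ((continuous_co 1).comp continuous_fst)
      exact ((continuous_const.mul h1).add (continuous_const.mul continuous_snd)).sub
        continuous_const
    · exact hDo.preimage ((continuous_hor 0).comp continuous_fst)
  have hxW : (x, -((n : ℝ) - j)) ∈ W := by
    refine ⟨hx, ?_, hD⟩
    have : (n : ℝ) * ψ (co 1 x) + -1 * (-((n : ℝ) - j)) - n = nx n j ψ (co 1 x) := by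
      simp only [nx]; ring
    change ¬ HitAny n (-1) m ((n : ℝ) * ψ (co 1 x) + -1 * (-((n : ℝ) - j)) - n) x
    rw [this]
    exact hx.2.2.2
  obtain ⟨U, J1, hU, hJ1, hxU, hxJ, hUJ⟩ := isOpen_prod_iff.1 hWo x (-((n : ℝ) - j)) hxW
  have hUG : ∀ x' ∈ U, x' ∈ G n m (nx n i φ) (nx n j ψ) ∧ pt x' 0 ∈ D := by
    intro x' hx'
    have := hUJ (⟨hx', hxJ⟩ : (x', -((n : ℝ) - j)) ∈ U ×ˢ J1)
    exact ⟨this.1, this.2.2⟩
  refine ⟨U, J1 ∩ Ioo (-((n : ℝ) - j) - 1) (-((n : ℝ) - j) + 1), fun _ => -((n : ℝ) - j), hU,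
    hJ1.inter isOpen_Ioo, ?_, ?_, contDiffOn_const, ?_, ?_, ?_⟩
  · rw [proj_pt]; exact hxU
  · rw [pt_last]; exact ⟨hxJ, by constructor <;> linarith⟩
  · intro x' _; exact ⟨hxJ, by constructor <;> linarith⟩
  · rintro x' hx' t ⟨htJ, ht0, ht1⟩
    obtain ⟨hx'G, hx'D⟩ := hUG x' hx'
    rw [mem_frontier_of_isOpen hDo]
    constructor
    · rintro ⟨hcl, hnD⟩
      by_contra hne
      rcases lt_or_gt_of_ne hne with hlt | hgt
      · apply hnD
        apply h.mem_of_closure _ hcl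
        obtain ⟨⟨ha0, ha1⟩, ⟨hb0, hb1⟩, hT, hB⟩ := hx'G
        have hs1 := strip_of_next hi ha0 ha1
        have hs2 := strip_of_next hj hb0 hb1
        refine ⟨?_, ?_, ?_, ?_⟩
        · rw [co_pt 0 (by omega)]; exact hs1
        · rw [co_pt 1 (by omega)]; exact hs2
        · rw [co_pt 0 (by omega)]
          rintro ⟨c, i', hi', h1⟩
          rw [hit_pt] at h1
          have hi'1 := cast_le_sub hi'
          rcases h1.2 with h2 | h2
          · linarith [h2.2.1]
          · exact hT ⟨c, i', hi', hit_mono _ _ _ _ _ _ _ _ (by simp only [nx]; linarith) h2⟩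
        · rw [co_pt 1 (by omega)]
          rintro ⟨c, i', hi', h1⟩
          rw [hit_pt] at h1
          rcases h1.2 with h2 | h2
          · have h3 : (n : ℝ) - i' = -t := by linarith [h2.2.1]
            have h4 : (i' : ℝ) < j := by linarith
            have h5 : i' + 1 ≤ j := by exact_mod_cast h4
            have h6 : (i' : ℝ) + 1 ≤ j := by exact_mod_cast h5
            linarith
          · have h3 := (hUJ (⟨hx', htJ⟩ : (x', t) ∈ U ×ˢ J1)).2.1
            exact h3 ⟨c, i', hi', h2⟩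
      · exact hnD (h.seg hm hi hj hx'G (zero_mem_In hi hj) hx'D ⟨hgt, by linarith⟩)
    · rintro rfl
      refine ⟨h.bot_closure hm hi hj hx'G hx'D, fun hmem => ?_⟩
      exact bot_not_G hm hj hx'G.2.1.1.le (h.sub hmem)
  · intro _ x' hx'
    obtain ⟨hx'G, hx'D⟩ := hUG x' hx'
    ext γ
    rw [h.lab_bot hm hi hj hx'G (h.bot_closure hm hi hj hx'G hx'D),
      h.lab_bot hm hi hj hx (h.bot_closure hm hi hj hx hD)]
    have s1 := strip_of_next hi hx'G.1.1 hx'G.1.2
    have s2 := strip_of_next hi hx.1.1 hx.1.2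
    have s3 := strip_of_next hj hx'G.2.1.1 hx'G.2.1.2
    have s4 := strip_of_next hj hx.2.1.1 hx.2.1.2
    rw [h.Pc _ _ s1.1 s1.2 s2.1 s2.2, h.Qc _ _ s3.1 s3.2 s4.1 s4.2]

/-- the central part over the substrips -/
def Cen (n m i j : ℕ) (D : Set (Fin (m + 1) → ℝ)) (φ ψ : ℝ → ℝ) : Set (Fin (m + 1) → ℝ) :=
  {y | proj y ∈ G n m (nx n i φ) (nx n j ψ) ∧ y (Fin.last m) ∈ In n i j ∧ y ∈ D}

theorem Inv.isOpen_cen (h : Inv n L (m + 1) D lab φ ψ P Q) (hi : i < n) :
    IsOpen (Cen n m i j D φ ψ) := by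
  have hn : 0 < n := Nat.zero_lt_of_lt hi
  refine IsOpen.inter ?_ (IsOpen.inter ?_ h.isOpen)
  · exact (isOpen_G n m (h.affφ.next hn i).continuous (h.affψ.next hn j).continuous).preimage
      continuous_proj
  · exact isOpen_Ioo.preimage (continuous_apply _)

theorem Inv.cen_pt_zero (h : Inv n L (m + 1) D lab φ ψ P Q) (hm : 2 ≤ m) (hi : i < n)
    (hj : j < n) {x : Fin m → ℝ} {t : ℝ} (hx : pt x t ∈ Cen n m i j D φ ψ) : pt x 0 ∈ D := by
  obtain ⟨h1, h2, h3⟩ := hx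
  rw [proj_pt] at h1
  rw [pt_last] at h2
  exact h.seg hm hi hj h1 h2 h3 (zero_mem_In hi hj)

/-- the central part contains no wall points -/
theorem Inv.cen_sub (h : Inv n L (m + 1) D lab φ ψ P Q) (hm : 2 ≤ m) (hi : i < n)
    (hj : j < n) : Cen n m i j D φ ψ ⊆ D \ walls κ D lab := by
  intro y hy
  have hy' := hy
  rw [← pt_proj y] at hy
  have h0 := h.cen_pt_zero hm hi hj hy
  obtain ⟨h1, h2, h3⟩ := hy'
  refine ⟨h3, ?_⟩
  rintro ⟨_, ⟨β, hβ, hn⟩ | ⟨α, hα, hn⟩⟩
  · have hβ' : β = (n : ℝ) - i := by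
      rcases lt_trichotomy β ((n : ℝ) - i) with hlt | heq | hgt
      · exfalso
        apply hβ.2.2
        exact h.seg hm hi hj h1 (zero_mem_In hi hj) h0 ⟨h2.1.trans hβ.1, hlt⟩
      · exact heq
      · exfalso
        exact top_not_G hm hi h1.1.1.le (h.sub (hβ.2.1 _ ⟨h2.2.le, hgt⟩))
    rw [hβ'] at hn
    exact hn (h.regular_top hm hi hj h1 h0)
  · have hα' : α = -((n : ℝ) - j) := by
      rcases lt_trichotomy α (-((n : ℝ) - j)) with hlt | heq | hgt
      · exfalso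
        exact bot_not_G hm hj h1.2.1.1.le (h.sub (hα.2.1 _ ⟨hlt, h2.1.le⟩))
      · exact heq
      · exfalso
        apply hα.2.2
        exact h.seg hm hi hj h1 (zero_mem_In hi hj) h0 ⟨hgt, hα.1.trans h2.2⟩
    rw [hα'] at hn
    exact hn (h.regular_bot hm hi hj h1 h0)

end Pool.Agent.W_MP_cfb63a_co
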