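import Pool.Agent.W_MP_cfb63a_co.Step2

/-!
# The central part is a union of subcells
-/

set_option autoImplicit false

open Set

namespace Pool.Agent.W_MP_cfb63a_co

variable {κ : Bool} {n m : ℕ} {ι : Type} {L : Bool → ℕ → ℕ → ι} {D : Set (Fin (m + 1) → ℝ)}
  {lab : (Fin (m + 1) → ℝ) → Set ι} {φ ψ : ℝ → ℝ} {P Q : ℝ → Set ι} {i j : ℕ}

/-- points near a limit point of the central part -/
theorem Inv.near (h : Inv n L (m + 1) D lab φ ψ P Q) (hm : 2 ≤ m) (hi : i < n)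
    (hj : j < n) {x : Fin m → ℝ} {t : ℝ} (hx : pt x t ∈ closure (Cen n m i j D φ ψ))
    {V : Set (Fin m → ℝ)} (hV : IsOpen V) (hxV : x ∈ V) :
    ∃ x' ∈ V, x' ∈ G n m (nx n i φ) (nx n j ψ) ∧ ∀ s ∈ In n i j, pt x' s ∈ D := by
  have h1 : IsOpen (proj ⁻¹' V : Set (Fin (m + 1) → ℝ)) := hV.preimage continuous_proj
  obtain ⟨z, hz, hzC⟩ := mem_closure_iff.1 hx _ h1 (by simpa using hxV)
  have hzC' := hzC
  rw [← pt_proj z] at hzC'
  have h0 := h.cen_pt_zero hm hi hj hzC'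
  exact ⟨proj z, hz, hzC.1, fun s hs => h.seg hm hi hj hzC.1 (zero_mem_In hi hj) h0 hs⟩

theorem Inv.top_not_D (h : Inv n L (m + 1) D lab φ ψ P Q) (hm : 2 ≤ m) (hi : i < n)
    (hj : j < n) {x : Fin m → ℝ} {t : ℝ} (hx : pt x t ∈ closure (Cen n m i j D φ ψ)) :
    pt x ((n : ℝ) - i) ∉ D := by
  intro hD
  obtain ⟨x', hx'V, hx'G, _⟩ := h.near hm hi hj hx (h.isOpen.preimage (continuous_hor _)) hD
  exact top_not_G hm hi hx'G.1.1.le (h.sub hx'V)

theorem Inv.bot_not_D (h : Inv n L (m + 1) D lab φ ψ P Q) (hm : 2 ≤ m) (hi : i < n)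
    (hj : j < n) {x : Fin m → ℝ} {t : ℝ} (hx : pt x t ∈ closure (Cen n m i j D φ ψ)) :
    pt x (-((n : ℝ) - j)) ∉ D := by
  intro hD
  obtain ⟨x', hx'V, hx'G, _⟩ := h.near hm hi hj hx (h.isOpen.preimage (continuous_hor _)) hD
  exact bot_not_G hm hj hx'G.2.1.1.le (h.sub hx'V)

theorem Inv.t_mem_In (h : Inv n L (m + 1) D lab φ ψ P Q) (hm : 2 ≤ m) (hi : i < n)
    (hj : j < n) {x : Fin m → ℝ} {t : ℝ} (hx : pt x t ∈ closure (Cen n m i j D φ ψ))
    (hD : pt x t ∈ D) : t ∈ In n i j := by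
  have h0 := zero_mem_In hi hj
  have h1 : closure (Cen n m i j D φ ψ) ⊆ {y | y (Fin.last m) ∈ Icc (-((n : ℝ) - j)) ((n : ℝ) - i)} := by
    apply closure_minimal
    · intro y hy
      exact ⟨hy.2.1.1.le, hy.2.1.2.le⟩
    · exact isClosed_Icc.preimage (continuous_apply _)
  have h2 := h1 hx
  simp only [mem_ofPred_eq, pt_last] at h2
  refine ⟨lt_of_le_of_ne h2.1 ?_, lt_of_le_of_ne h2.2 ?_⟩
  · intro he
    rw [← he] at hD hx
    exact h.bot_not_D hm hi hj hx hD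
  · intro he
    rw [he] at hD hx
    exact h.top_not_D hm hi hj hx hD

/-- a regular frontier point above a limit point of the central part is not inside the box -/
theorem Inv.no_inner (h : Inv n L (m + 1) D lab φ ψ P Q) (hm : 2 ≤ m) (hi : i < n)
    (hj : j < n) {x : Fin m → ℝ} {t : ℝ} (hx : pt x t ∈ closure (Cen n m i j D φ ψ))
    {β : ℝ} (hβ : β ∈ In n i j) (hfr : pt x β ∈ frontier D) (hreg : Regular κ D lab (pt x β)) :
    False := by
  obtain ⟨V, J, f, hV, hJ, hxV, hβJ, hf, hfJ, hgr, _⟩ := hreg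
  rw [proj_pt] at hxV
  rw [pt_last] at hβJ
  have hfx : β = f x := (hgr x hxV β hβJ).1 hfr
  have hcont : ContinuousAt f x := (hf.continuousOn).continuousAt (hV.mem_nhds hxV)
  have h1 : f ⁻¹' (In n i j) ∈ nhds x := hcont.preimage_mem_nhds
    (isOpen_Ioo.mem_nhds (by rw [← hfx]; exact hβ))
  obtain ⟨V', hV'sub, hV'o, hxV'⟩ := mem_nhds_iff.1 (Filter.inter_mem h1 (hV.mem_nhds hxV))
  obtain ⟨x', hx'V, _, hx's⟩ := h.near hm hi hj hx hV'o hxV'
  have h2 := hV'sub hx'V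
  have h3 := hx's _ h2.1
  have h4 := (hgr x' h2.2 (f x') (hfJ x' h2.2)).2 rfl
  rw [mem_frontier_of_isOpen h.isOpen] at h4
  exact h4.2 h3

theorem Inv.isTop_top (h : Inv n L (m + 1) D lab φ ψ P Q) (hm : 2 ≤ m) (hi : i < n)
    (hj : j < n) {x : Fin m → ℝ} {t : ℝ} (hx : pt x t ∈ closure (Cen n m i j D φ ψ))
    (hD : pt x t ∈ D) (hw : pt x t ∉ walls κ D lab) :
    IsTop D x t ((n : ℝ) - i) ∧ Regular κ D lab (pt x ((n : ℝ) - i)) := by
  have ht := h.t_mem_In hm hi hj hx hD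
  obtain ⟨β, hβ, htop⟩ := exists_isTop h.isOpen hD ht.2.le (h.top_not_D hm hi hj hx)
  have hreg : Regular κ D lab (pt x β) := by
    by_contra hn
    apply hw
    refine ⟨hD, Or.inl ⟨β, ?_, ?_⟩⟩
    · rw [proj_pt, pt_last]; exact htop
    · rw [proj_pt]; exact hn
  rcases hβ.lt_or_eq with hlt | heq
  · exact (h.no_inner hm hi hj hx ⟨ht.1.trans htop.1, hlt⟩
      (htop.mem_frontier h.isOpen) hreg).elim
  · rw [← heq]; exact ⟨htop, hreg⟩

theorem Inv.isBot_bot (h : Inv n L (m + 1) D lab φ ψ P Q) (hm : 2 ≤ m) (hi : i < n)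
    (hj : j < n) {x : Fin m → ℝ} {t : ℝ} (hx : pt x t ∈ closure (Cen n m i j D φ ψ))
    (hD : pt x t ∈ D) (hw : pt x t ∉ walls κ D lab) :
    IsBot D x t (-((n : ℝ) - j)) ∧ Regular κ D lab (pt x (-((n : ℝ) - j))) := by
  have ht := h.t_mem_In hm hi hj hx hD
  obtain ⟨α, hα, hbot⟩ := exists_isBot h.isOpen hD ht.1.le (h.bot_not_D hm hi hj hx)
  have hreg : Regular κ D lab (pt x α) := by
    by_contra hn
    apply hw
    refine ⟨hD, Or.inr ⟨α, ?_, ?_⟩⟩
    · rw [proj_pt, pt_last]; exact hbot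
    · rw [proj_pt]; exact hn
  rcases hα.lt_or_eq with hlt | heq
  · exact (h.no_inner hm hi hj hx ⟨hlt, hbot.1.trans ht.2⟩
      (hbot.mem_frontier h.isOpen) hreg).elim
  · rw [heq]; exact ⟨hbot, hreg⟩

/-! ### Small displacements -/

/-- move the coordinate `k₀` by `r` and all coordinates with number at least two by `δ` -/
def sh (x : Fin m → ℝ) (k₀ : ℕ) (r δ : ℝ) : Fin m → ℝ := fun k =>
  x k + ((if (k : ℕ) = k₀ then r else 0) + (if 2 ≤ (k : ℕ) then δ else 0))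

theorem sh_zero (x : Fin m → ℝ) (k₀ : ℕ) : sh x k₀ 0 0 = x := by
  funext k
  simp [sh]

theorem continuous_sh (x : Fin m → ℝ) (k₀ : ℕ) :
    Continuous fun z : ℝ × ℝ => sh x k₀ z.1 z.2 := by
  refine continuous_pi fun k => ?_
  unfold sh
  refine continuous_const.add (Continuous.add ?_ ?_)
  · split_ifs
    · exact continuous_fst
    · exact continuous_const
  · split_ifs
    · exact continuous_snd
    · exact continuous_const

theorem co_sh_self (x : Fin m → ℝ) (k₀ : ℕ) (hk : k₀ < m) (hk2 : k₀ < 2) (r δ : ℝ) :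
    co k₀ (sh x k₀ r δ) = co k₀ x + r := by
  have : ¬ 2 ≤ k₀ := by omega
  rw [co, dif_pos hk, co, dif_pos hk]
  simp [sh, this]

theorem co_sh_of_ne (x : Fin m → ℝ) (k₀ k : ℕ) (hk : k < 2) (hne : k ≠ k₀) (r δ : ℝ) :
    co k (sh x k₀ r δ) = co k x := by
  have : ¬ 2 ≤ k := by omega
  unfold co
  split_ifs
  · simp [sh, this, hne]
  · rfl

theorem co_sh_ge (x : Fin m → ℝ) (k₀ k : ℕ) (hk₀ : k₀ < 2) (hk : 2 ≤ k) (hkm : k < m) (r δ : ℝ) :
    co k (sh x k₀ r δ) = co k x + δ := by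
  have h1 : k ≠ k₀ := by omega
  rw [co, dif_pos hkm, co, dif_pos hkm]
  simp [sh, hk, h1]

/-- the coordinate of a hit -/
theorem hit_height (n : ℕ) (s : ℝ) (m : ℕ) : ∀ (w : ℝ) (x : Fin m → ℝ) (c i : ℕ),
    Hit n s m w x c i → s * co c x = n - i := by
  induction m with
  | zero => intro w x c i h; exact h.elim
  | succ m ih =>
    intro w x c i h
    rcases h.2 with h2 | h2
    · rw [h2.1, co, dif_pos (Nat.lt_succ_self m)]
      exact h2.2.1
    · have hc := hit_c _ _ _ _ _ _ _ h2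
      have := ih _ _ _ _ h2
      rwa [co_proj c hc.2] at this

/-- a hit depends only on the coordinates with number at least two -/
theorem hit_congr (n : ℕ) (s : ℝ) (m : ℕ) : ∀ (w : ℝ) (x x' : Fin m → ℝ) (c i : ℕ),
    (∀ k, 2 ≤ k → k < m → co k x = co k x') → Hit n s m w x c i → Hit n s m w x' c i := by
  induction m with
  | zero => intro w x x' c i _ h; exact h
  | succ m ih =>
    intro w x x' c i hx h
    have h2 := h.1
    have hl : x (Fin.last m) = x' (Fin.last m) := by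
      have := hx m h2 (Nat.lt_succ_self m)
      rwa [co, dif_pos (Nat.lt_succ_self m), co, dif_pos (Nat.lt_succ_self m)] at this
    refine ⟨h2, ?_⟩
    rw [← hl]
    rcases h.2 with h3 | h3
    · exact Or.inl h3
    · refine Or.inr (ih _ _ _ _ _ ?_ h3)
      intro k hk hkm
      rw [co_proj k hkm, co_proj k hkm]
      exact hx k hk (by omega)

/-- no coordinate with number at least two is an integer -/
def Gen (x : Fin m → ℝ) : Prop := ∀ k, 2 ≤ k → k < m → ∀ z : ℤ, co k x ≠ z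

theorem Gen.not_hit {x : Fin m → ℝ} (hx : Gen x) (n : ℕ) (s : Bool) (w : ℝ) (c i : ℕ) :
    ¬ Hit n (if s then 1 else -1) m w x c i := by
  intro h
  have hc := hit_c _ _ _ _ _ _ _ h
  have h1 := hit_height _ _ _ _ _ _ _ h
  cases s
  · apply hx c hc.1 hc.2 ((i : ℤ) - n)
    simp only [Bool.false_eq_true, if_false] at h1
    push_cast
    linarith
  · apply hx c hc.1 hc.2 ((n : ℤ) - i)
    simp only [if_true] at h1
    push_cast
    linarith

theorem eventually_gen (x : Fin m → ℝ) (k₀ : ℕ) (hk₀ : k₀ < 2) (r : ℝ) :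
    ∀ᶠ δ in nhdsWithin (0 : ℝ) (Ioi 0), Gen (sh x k₀ r δ) := by
  have h1 : ∀ k ∈ Finset.range m, ∀ᶠ δ in nhdsWithin (0 : ℝ) (Ioi 0),
      ∀ z : ℤ, co k x + δ ≠ z := by
    intro k _
    have hpos : 0 < (⌊co k x⌋ : ℝ) + 1 - co k x := by
      linarith [Int.lt_floor_add_one (co k x)]
    filter_upwards [Ioo_mem_nhdsGT hpos] with δ hδ z hz
    have h2 : (⌊co k x⌋ : ℝ) ≤ co k x := Int.floor_le _
    have h3 : ((⌊co k x⌋ : ℤ) : ℝ) < (z : ℝ) := by linarith [hδ.1]
    have h4 : (z : ℝ) < ((⌊co k x⌋ + 1 : ℤ) : ℝ) := by push_cast; linarith [hδ.2]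
    have h5 : ⌊co k x⌋ < z := by exact_mod_cast h3
    have h6 : z < ⌊co k x⌋ + 1 := by exact_mod_cast h4
    omega
  have h2 := (Finset.eventually_all (l := nhdsWithin (0 : ℝ) (Ioi 0)) (Finset.range m)).2 h1
  filter_upwards [h2] with δ hδ k hk hkm z
  rw [co_sh_ge x k₀ k hk₀ hk hkm]
  exact hδ k (Finset.mem_range.2 hkm) z

/-- a preconnected set which meets the open set `D` and not its frontier is contained in `D` -/
theorem sub_of_preconnected {k : ℕ} {S D : Set (Fin (k + 1) → ℝ)} (hD : IsOpen D)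
    (hS : IsPreconnected S) (h1 : (S ∩ D).Nonempty) (h2 : ∀ y ∈ S, y ∉ frontier D) : S ⊆ D := by
  refine hS.subset_of_closure_inter_subset hD h1 ?_
  rintro y ⟨hy, hyS⟩
  by_contra hn
  exact h2 y hyS ((mem_frontier_of_isOpen hD).2 ⟨hy, hn⟩)

/-- the height of the frontier above a general point, close to the top of the central box -/
theorem Inv.top_height (h : Inv n L (m + 1) D lab φ ψ P Q) (hm : 2 ≤ m) (hi : i < n)
    {x : Fin m → ℝ} {s : ℝ} (hg : Gen x) (h1 : 0 < φ (co 0 x) ∧ φ (co 0 x) < 1)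
    (h2 : 0 < ψ (co 1 x) ∧ ψ (co 1 x) < 1) (hs : |s - ((n : ℝ) - i)| < 1)
    (hfr : pt x s ∈ frontier D) : s = n - i ∧ (i : ℝ) ≤ n * φ (co 0 x) := by
  have hi1 := cast_le_sub hi
  rw [abs_lt] at hs
  rw [mem_frontier_of_isOpen h.isOpen] at hfr
  have hnG : pt x s ∉ G n (m + 1) φ ψ := fun hG => hfr.2 (h.mem_of_closure hG hfr.1)
  by_contra hcon
  apply hnG
  refine ⟨?_, ?_, ?_, ?_⟩
  · rw [co_pt 0 (by omega)]; exact h1
  · rw [co_pt 1 (by omega)]; exact h2
  · rw [co_pt 0 (by omega)]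
    rintro ⟨c, i', hi', hh⟩
    rw [hit_pt] at hh
    rcases hh.2 with h3 | h3
    · have h4 : (n : ℝ) - i' = s := by linarith [h3.2.1]
      have h5 : (i' : ℝ) < i + 1 := by linarith
      have h6 : (i : ℝ) < i' + 1 := by linarith
      have h7 : i' < i + 1 := by exact_mod_cast h5
      have h8 : i < i' + 1 := by exact_mod_cast h6
      have h9 : i' = i := by omega
      subst h9
      exact hcon ⟨h4.symm, h3.2.2⟩
    · have := hg.not_hit n true ((n : ℝ) * φ (co 0 x) + 1 * s - n) c i'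
      simp only [if_true] at this
      exact this h3
  · rw [co_pt 1 (by omega)]
    rintro ⟨c, i', hi', hh⟩
    have hi'1 := cast_le_sub hi'
    rw [hit_pt] at hh
    rcases hh.2 with h3 | h3
    · linarith [h3.2.1]
    · have := hg.not_hit n false ((n : ℝ) * ψ (co 1 x) + -1 * s - n) c i'
      simp only [Bool.false_eq_true, if_false] at this
      exact this h3

/-- the height of the frontier above a general point, close to the bottom of the central box -/
theorem Inv.bot_height (h : Inv n L (m + 1) D lab φ ψ P Q) (hm : 2 ≤ m) (hj : j < n)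
    {x : Fin m → ℝ} {s : ℝ} (hg : Gen x) (h1 : 0 < φ (co 0 x) ∧ φ (co 0 x) < 1)
    (h2 : 0 < ψ (co 1 x) ∧ ψ (co 1 x) < 1) (hs : |s - (-((n : ℝ) - j))| < 1)
    (hfr : pt x s ∈ frontier D) : s = -((n : ℝ) - j) ∧ (j : ℝ) ≤ n * ψ (co 1 x) := by
  have hj1 := cast_le_sub hj
  rw [abs_lt] at hs
  rw [mem_frontier_of_isOpen h.isOpen] at hfr
  have hnG : pt x s ∉ G n (m + 1) φ ψ := fun hG => hfr.2 (h.mem_of_closure hG hfr.1)
  by_contra hcon
  apply hnG
  refine ⟨?_, ?_, ?_, ?_⟩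
  · rw [co_pt 0 (by omega)]; exact h1
  · rw [co_pt 1 (by omega)]; exact h2
  · rw [co_pt 0 (by omega)]
    rintro ⟨c, i', hi', hh⟩
    have hi'1 := cast_le_sub hi'
    rw [hit_pt] at hh
    rcases hh.2 with h3 | h3
    · linarith [h3.2.1]
    · have := hg.not_hit n true ((n : ℝ) * φ (co 0 x) + 1 * s - n) c i'
      simp only [if_true] at this
      exact this h3
  · rw [co_pt 1 (by omega)]
    rintro ⟨c, i', hi', hh⟩
    rw [hit_pt] at hh
    rcases hh.2 with h3 | h3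
    · have h4 : (n : ℝ) - i' = -s := by linarith [h3.2.1]
      have h5 : (i' : ℝ) < j + 1 := by linarith
      have h6 : (j : ℝ) < i' + 1 := by linarith
      have h7 : i' < j + 1 := by exact_mod_cast h5
      have h8 : j < i' + 1 := by exact_mod_cast h6
      have h9 : i' = j := by omega
      subst h9
      exact hcon ⟨by linarith, h3.2.2⟩
    · have := hg.not_hit n false ((n : ℝ) * ψ (co 1 x) + -1 * s - n) c i'
      simp only [Bool.false_eq_true, if_false] at this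
      exact this h3

/-- the strips contain the base point of a point of `D` -/
theorem Inv.base (h : Inv n L (m + 1) D lab φ ψ P Q) (hm : 2 ≤ m) {x : Fin m → ℝ} {t : ℝ}
    (hD : pt x t ∈ D) : (0 < φ (co 0 x) ∧ φ (co 0 x) < 1) ∧
      (0 < ψ (co 1 x) ∧ ψ (co 1 x) < 1) := by
  have hG := h.sub hD
  have h1 := hG.1
  have h2 := hG.2.1
  rw [co_pt 0 (by omega)] at h1
  rw [co_pt 1 (by omega)] at h2
  exact ⟨h1, h2⟩

/-- everything is fine for small displacements -/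
theorem exists_radius (hφ : Continuous φ) (hψ : Continuous ψ) {x : Fin m → ℝ} (k₀ : ℕ)
    (h1 : 0 < φ (co 0 x) ∧ φ (co 0 x) < 1) (h2 : 0 < ψ (co 1 x) ∧ ψ (co 1 x) < 1)
    {V : Set (Fin m → ℝ)} (hV : IsOpen V) (hxV : x ∈ V) {f : (Fin m → ℝ) → ℝ}
    (hf : ContinuousOn f V) :
    ∃ ε : ℝ, 0 < ε ∧ ∀ r δ : ℝ, |r| < ε → |δ| < ε →
      sh x k₀ r δ ∈ V ∧ |f (sh x k₀ r δ) - f x| < 1 ∧
      (0 < φ (co 0 (sh x k₀ r δ)) ∧ φ (co 0 (sh x k₀ r δ)) < 1) ∧
      (0 < ψ (co 1 (sh x k₀ r δ)) ∧ ψ (co 1 (sh x k₀ r δ)) < 1) := by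
  set W : Set (Fin m → ℝ) := {y | y ∈ V ∧ |f y - f x| < 1 ∧
    (0 < φ (co 0 y) ∧ φ (co 0 y) < 1) ∧ (0 < ψ (co 1 y) ∧ ψ (co 1 y) < 1)} with hW
  have hWn : W ∈ nhds x := by
    have e1 : ∀ᶠ y in nhds x, y ∈ V := hV.mem_nhds hxV
    have e2 : ∀ᶠ y in nhds x, |f y - f x| < 1 := by
      have hc : ContinuousAt f x := hf.continuousAt (hV.mem_nhds hxV)
      have := Metric.continuousAt_iff'.1 hc 1 one_pos
      filter_upwards [this] with y hy
      rwa [Real.dist_eq] at hy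
    have c0 : Continuous fun y : Fin m → ℝ => φ (co 0 y) := hφ.comp (continuous_co 0)
    have c1 : Continuous fun y : Fin m → ℝ => ψ (co 1 y) := hψ.comp (continuous_co 1)
    have e3 : ∀ᶠ y in nhds x, 0 < φ (co 0 y) ∧ φ (co 0 y) < 1 :=
      ((isOpen_lt continuous_const c0).inter (isOpen_lt c0 continuous_const)).mem_nhds h1
    have e4 : ∀ᶠ y in nhds x, 0 < ψ (co 1 y) ∧ ψ (co 1 y) < 1 :=
      ((isOpen_lt continuous_const c1).inter (isOpen_lt c1 continuous_const)).mem_nhds h2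
    filter_upwards [e1, e2, e3, e4] with y y1 y2 y3 y4
    exact ⟨y1, y2, y3, y4⟩
  have hc := (continuous_sh x k₀).continuousAt (x := ((0 : ℝ), (0 : ℝ)))
  have hpre : (fun z : ℝ × ℝ => sh x k₀ z.1 z.2) ⁻¹' W ∈ nhds ((0 : ℝ), (0 : ℝ)) := by
    apply hc.preimage_mem_nhds
    simp only [sh_zero]
    exact hWn
  obtain ⟨ε, hε, hball⟩ := Metric.mem_nhds_iff.1 hpre
  refine ⟨ε, hε, fun r δ hr hδ => ?_⟩
  have : (r, δ) ∈ Metric.ball ((0 : ℝ), (0 : ℝ)) ε := by
    rw [Metric.mem_ball, Prod.dist_eq, Real.dist_eq, Real.dist_eq, sub_zero, sub_zero]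
    exact max_lt hr hδ
  exact hball this

/-- above the side of a top point the frontier is flat -/
theorem flat_aux {x : Fin m → ℝ} {k₀ : ℕ} (hk₀ : k₀ < 2) {ε : ℝ} (hε : 0 < ε)
    {V : Set (Fin m → ℝ)} (hV : IsOpen V) {f : (Fin m → ℝ) → ℝ} (hf : ContinuousOn f V) {v : ℝ}
    {r : ℝ} (hrV : ∀ δ : ℝ, |δ| < ε → sh x k₀ r δ ∈ V)
    (hval : ∀ δ : ℝ, |δ| < ε → Gen (sh x k₀ r δ) → f (sh x k₀ r δ) = v) :
    f (sh x k₀ r 0) = v := by
  have h0 : sh x k₀ r 0 ∈ V := hrV 0 (by rw [abs_zero]; exact hε)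
  have hc : ContinuousAt f (sh x k₀ r 0) := hf.continuousAt (hV.mem_nhds h0)
  have hc2 : Filter.Tendsto (fun δ : ℝ => sh x k₀ r δ) (nhdsWithin 0 (Ioi 0))
      (nhds (sh x k₀ r 0)) := by
    have h1 : Continuous fun δ : ℝ => sh x k₀ r δ :=
      (continuous_sh x k₀).comp (Continuous.prodMk_right r)
    exact (h1.tendsto 0).mono_left nhdsWithin_le_nhds
  have h1 : Filter.Tendsto (fun δ : ℝ => f (sh x k₀ r δ)) (nhdsWithin 0 (Ioi 0))
      (nhds (f (sh x k₀ r 0))) := hc.tendsto.comp hc2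
  have h2 : ∀ᶠ δ in nhdsWithin (0 : ℝ) (Ioi 0), f (sh x k₀ r δ) = v := by
    filter_upwards [eventually_gen x k₀ hk₀ r, Ioo_mem_nhdsGT hε] with δ hg hδ
    exact hval δ (by rw [abs_of_pos hδ.1]; exact hδ.2) hg
  exact tendsto_nhds_unique h1 (tendsto_const_nhds.congr' (h2.mono fun δ hδ => hδ.symm))

/-- what the regularity of the top point means -/
theorem Inv.top_info (h : Inv n L (m + 1) D lab φ ψ P Q) (hm : 2 ≤ m) (hi : i < n)
    {x : Fin m → ℝ} {t : ℝ} (hD : pt x t ∈ D) (htop : IsTop D x t ((n : ℝ) - i))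
    (hreg : Regular κ D lab (pt x ((n : ℝ) - i))) :
    0 < nx n i φ (co 0 x) ∧ ¬ HitAny n 1 m (nx n i φ (co 0 x)) x := by
  have hn : 0 < n := Nat.zero_lt_of_lt hi
  have hnr : (0 : ℝ) < n := by exact_mod_cast hn
  have hfr := htop.mem_frontier h.isOpen
  obtain ⟨V, J, f, hV, hJ, hxV, hβJ, hf, hfJ, hgr, _⟩ := hreg
  rw [proj_pt] at hxV
  rw [pt_last] at hβJ
  have hfx : ((n : ℝ) - i) = f x := (hgr x hxV _ hβJ).1 hfr
  obtain ⟨hb0, hb1⟩ := h.base hm hD
  obtain ⟨ε, hε, hrad⟩ := exists_radius h.affφ.continuous h.affψ.continuous 0 hb0 hb1 hV hxV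
    hf.continuousOn
  have hsm := h.affφ.strictMono
  have hfrf : ∀ y ∈ V, pt y (f y) ∈ frontier D := fun y hy => (hgr y hy _ (hfJ y hy)).2 rfl
  have hpos : 0 < nx n i φ (co 0 x) := by
    by_contra hneg
    push Not at hneg
    have hr : |(-(ε / 2))| < ε := by
      rw [abs_neg, abs_of_pos (by positivity)]; linarith
    obtain ⟨δ, hg, hδ⟩ := ((eventually_gen x 0 (by omega) (-(ε / 2))).and
      (Ioo_mem_nhdsGT hε)).exists
    obtain ⟨g1, g2, g3, g4⟩ := hrad (-(ε / 2)) δ hr (by rw [abs_of_pos hδ.1]; exact hδ.2)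
    rw [← hfx] at g2
    have h1 := (h.top_height hm hi hg g3 g4 g2 (hfrf _ g1)).2
    rw [co_sh_self x 0 (by omega) (by omega)] at h1
    have h2 : φ (co 0 x + -(ε / 2)) < φ (co 0 x) := hsm (by linarith)
    have h3 := mul_lt_mul_of_pos_left h2 hnr
    simp only [nx] at hneg
    linarith
  refine ⟨hpos, ?_⟩
  have hflat : ∀ r : ℝ, 0 ≤ r → r < ε → f (sh x 0 r 0) = (n : ℝ) - i := by
    intro r hr0 hr
    have hr' : |r| < ε := by rw [abs_of_nonneg hr0]; exact hr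
    apply flat_aux (by omega) hε hV hf.continuousOn (fun δ hδ => (hrad r δ hr' hδ).1)
    intro δ hδ hg
    obtain ⟨g1, g2, g3, g4⟩ := hrad r δ hr' hδ
    rw [← hfx] at g2
    exact (h.top_height hm hi hg g3 g4 g2 (hfrf _ g1)).1
  rintro ⟨c, i', hi', hhit⟩
  obtain ⟨A, B, hA, hAB⟩ := h.affφ
  obtain ⟨η, hη, hball⟩ := Metric.isOpen_iff.1 hJ _ hβJ
  set s : ℝ := max ((n : ℝ) - i - η / 2) (max ((n : ℝ) - i - n * (A * (ε / 2))) t) with hs
  have hs1 : (n : ℝ) - i - η / 2 ≤ s := le_max_left _ _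
  have hs2 : (n : ℝ) - i - n * (A * (ε / 2)) ≤ s := (le_max_left _ _).trans (le_max_right _ _)
  have hs3 : t ≤ s := (le_max_right _ _).trans (le_max_right _ _)
  have hs4 : s < (n : ℝ) - i := by
    refine max_lt (by linarith) (max_lt ?_ htop.1)
    have : 0 < (n : ℝ) * (A * (ε / 2)) := by positivity
    linarith
  have hsJ : s ∈ J := by
    apply hball
    rw [Metric.mem_ball, Real.dist_eq, abs_lt]
    constructor <;> linarith
  have hsub : (fun r : ℝ => pt (sh x 0 r 0) s) '' Icc 0 (ε / 2) ⊆ D := by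
    apply sub_of_preconnected h.isOpen
    · apply isPreconnected_Icc.image
      refine (continuous_hor s).comp_continuousOn ?_
      exact ((continuous_sh x 0).comp (Continuous.prodMk_left 0)).continuousOn
    · refine ⟨pt x s, ⟨0, ⟨le_rfl, by positivity⟩, ?_⟩, htop.2.1 s ⟨hs3, hs4⟩⟩
      simp only [sh_zero]
    · rintro _ ⟨r, hr, rfl⟩ hfrr
      have hr' : r < ε := lt_of_le_of_lt hr.2 (by linarith)
      have hrV := (hrad r 0 (by rw [abs_of_nonneg hr.1]; exact hr')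
        (by rw [abs_zero]; exact hε)).1
      have := (hgr _ hrV s hsJ).1 hfrr
      rw [hflat r hr.1 hr'] at this
      linarith
  have hmem : pt (sh x 0 (ε / 2) 0) s ∈ D :=
    hsub ⟨ε / 2, ⟨by positivity, le_rfl⟩, rfl⟩
  have hT := (h.sub hmem).2.2.1
  apply hT
  rw [co_pt 0 (by omega), co_sh_self x 0 (by omega) (by omega)]
  refine ⟨c, i', hi', (hit_pt _ _ _ _ _ _ _ _).2 ⟨hm, Or.inr ?_⟩⟩
  refine hit_congr _ _ _ _ x _ _ _ ?_ (hit_mono _ _ _ _ _ _ _ _ ?_ hhit)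
  · intro k hk hkm
    rw [co_sh_ge x 0 k (by omega) hk hkm, add_zero]
  · simp only [nx]
    have e1 : φ (co 0 x + ε / 2) = φ (co 0 x) + A * (ε / 2) := by
      rw [hAB, hAB]; ring
    rw [e1, mul_add]
    linarith

/-- what the regularity of the bottom point means -/
theorem Inv.bot_info (h : Inv n L (m + 1) D lab φ ψ P Q) (hm : 2 ≤ m) (hj : j < n)
    {x : Fin m → ℝ} {t : ℝ} (hD : pt x t ∈ D) (hbot : IsBot D x t (-((n : ℝ) - j)))
    (hreg : Regular κ D lab (pt x (-((n : ℝ) - j)))) :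
    0 < nx n j ψ (co 1 x) ∧ ¬ HitAny n (-1) m (nx n j ψ (co 1 x)) x := by
  have hn : 0 < n := Nat.zero_lt_of_lt hj
  have hnr : (0 : ℝ) < n := by exact_mod_cast hn
  have hfr := hbot.mem_frontier h.isOpen
  obtain ⟨V, J, f, hV, hJ, hxV, hβJ, hf, hfJ, hgr, _⟩ := hreg
  rw [proj_pt] at hxV
  rw [pt_last] at hβJ
  have hfx : (-((n : ℝ) - j)) = f x := (hgr x hxV _ hβJ).1 hfr
  obtain ⟨hb0, hb1⟩ := h.base hm hD
  obtain ⟨ε, hε, hrad⟩ := exists_radius h.affφ.continuous h.affψ.continuous 1 hb0 hb1 hV hxV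
    hf.continuousOn
  have hsm := h.affψ.strictMono
  have hfrf : ∀ y ∈ V, pt y (f y) ∈ frontier D := fun y hy => (hgr y hy _ (hfJ y hy)).2 rfl
  have hpos : 0 < nx n j ψ (co 1 x) := by
    by_contra hneg
    push Not at hneg
    have hr : |(-(ε / 2))| < ε := by
      rw [abs_neg, abs_of_pos (by positivity)]; linarith
    obtain ⟨δ, hg, hδ⟩ := ((eventually_gen x 1 (by omega) (-(ε / 2))).and
      (Ioo_mem_nhdsGT hε)).exists
    obtain ⟨g1, g2, g3, g4⟩ := hrad (-(ε / 2)) δ hr (by rw [abs_of_pos hδ.1]; exact hδ.2)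
    rw [← hfx] at g2
    have h1 := (h.bot_height hm hj hg g3 g4 g2 (hfrf _ g1)).2
    rw [co_sh_self x 1 (by omega) (by omega)] at h1
    have h2 : ψ (co 1 x + -(ε / 2)) < ψ (co 1 x) := hsm (by linarith)
    have h3 := mul_lt_mul_of_pos_left h2 hnr
    simp only [nx] at hneg
    linarith
  refine ⟨hpos, ?_⟩
  have hflat : ∀ r : ℝ, 0 ≤ r → r < ε → f (sh x 1 r 0) = -((n : ℝ) - j) := by
    intro r hr0 hr
    have hr' : |r| < ε := by rw [abs_of_nonneg hr0]; exact hr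
    apply flat_aux (by omega) hε hV hf.continuousOn (fun δ hδ => (hrad r δ hr' hδ).1)
    intro δ hδ hg
    obtain ⟨g1, g2, g3, g4⟩ := hrad r δ hr' hδ
    rw [← hfx] at g2
    exact (h.bot_height hm hj hg g3 g4 g2 (hfrf _ g1)).1
  rintro ⟨c, i', hi', hhit⟩
  obtain ⟨A, B, hA, hAB⟩ := h.affψ
  obtain ⟨η, hη, hball⟩ := Metric.isOpen_iff.1 hJ _ hβJ
  set s : ℝ := min (-((n : ℝ) - j) + η / 2) (min (-((n : ℝ) - j) + n * (A * (ε / 2))) t) with hs
  have hs1 : s ≤ -((n : ℝ) - j) + η / 2 := min_le_left _ _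
  have hs2 : s ≤ -((n : ℝ) - j) + n * (A * (ε / 2)) := (min_le_right _ _).trans (min_le_left _ _)
  have hs3 : s ≤ t := (min_le_right _ _).trans (min_le_right _ _)
  have hs4 : -((n : ℝ) - j) < s := by
    refine lt_min (by linarith) (lt_min ?_ hbot.1)
    have : 0 < (n : ℝ) * (A * (ε / 2)) := by positivity
    linarith
  have hsJ : s ∈ J := by
    apply hball
    rw [Metric.mem_ball, Real.dist_eq, abs_lt]
    constructor <;> linarith
  have hsub : (fun r : ℝ => pt (sh x 1 r 0) s) '' Icc 0 (ε / 2) ⊆ D := by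
    apply sub_of_preconnected h.isOpen
    · apply isPreconnected_Icc.image
      refine (continuous_hor s).comp_continuousOn ?_
      exact ((continuous_sh x 1).comp (Continuous.prodMk_left 0)).continuousOn
    · refine ⟨pt x s, ⟨0, ⟨le_rfl, by positivity⟩, ?_⟩, hbot.2.1 s ⟨hs4, hs3⟩⟩
      simp only [sh_zero]
    · rintro _ ⟨r, hr, rfl⟩ hfrr
      have hr' : r < ε := lt_of_le_of_lt hr.2 (by linarith)
      have hrV := (hrad r 0 (by rw [abs_of_nonneg hr.1]; exact hr')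
        (by rw [abs_zero]; exact hε)).1
      have := (hgr _ hrV s hsJ).1 hfrr
      rw [hflat r hr.1 hr'] at this
      linarith
  have hmem : pt (sh x 1 (ε / 2) 0) s ∈ D :=
    hsub ⟨ε / 2, ⟨by positivity, le_rfl⟩, rfl⟩
  have hT := (h.sub hmem).2.2.2
  apply hT
  rw [co_pt 1 (by omega), co_sh_self x 1 (by omega) (by omega)]
  refine ⟨c, i', hi', (hit_pt _ _ _ _ _ _ _ _).2 ⟨hm, Or.inr ?_⟩⟩
  refine hit_congr _ _ _ _ x _ _ _ ?_ (hit_mono _ _ _ _ _ _ _ _ ?_ hhit)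
  · intro k hk hkm
    rw [co_sh_ge x 1 k (by omega) hk hkm, add_zero]
  · simp only [nx]
    have e1 : ψ (co 1 x + ε / 2) = ψ (co 1 x) + A * (ε / 2) := by
      rw [hAB, hAB]; ring
    rw [e1, mul_add]
    linarith

/-- upper bounds for the residuals -/
theorem Inv.lt_one (h : Inv n L (m + 1) D lab φ ψ P Q)
    (hm : 2 ≤ m) (hi : i < n)
    (hj : j < n) {x : Fin m → ℝ} {t : ℝ}
    (hD : pt x t ∈ D) (hseg : ∀ s ∈ In n i j, pt x s ∈ D) :
    nx n i φ (co 0 x) < 1 ∧ nx n j ψ (co 1 x) < 1 := by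
  have hn : 0 < n := Nat.zero_lt_of_lt hi
  have hG := h.sub hD
  have hG1 := hG.1.2
  have hG2 := hG.2.1.2
  rw [co_pt 0 (by omega)] at hG1
  rw [co_pt 1 (by omega)] at hG2
  have hi1 := cast_le_sub hi
  have hj1 := cast_le_sub hj
  have hnr : (0 : ℝ) < n := by exact_mod_cast hn
  constructor
  · by_contra hge
    push Not at hge
    simp only [nx] at hge
    by_cases hin : i + 1 < n
    · have hs : ((n : ℝ) - (i + 1 : ℕ)) ∈ In n i j := by
        have := cast_le_sub hin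
        push_cast at this ⊢
        constructor <;> linarith
      have h1 := h.sub (hseg _ hs)
      exact top_not_G hm hin (by simp only [nx]; push_cast; linarith) h1
    · have : (n : ℝ) = i + 1 := by
        have : n = i + 1 := by omega
        exact_mod_cast this
      have h2 : (n : ℝ) * φ (co 0 x) < n * 1 := mul_lt_mul_of_pos_left hG1 hnr
      linarith
  · by_contra hge
    push Not at hge
    simp only [nx] at hge
    by_cases hjn : j + 1 < n
    · have hs : (-((n : ℝ) - (j + 1 : ℕ))) ∈ In n i j := by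
        have := cast_le_sub hjn
        push_cast at this ⊢
        constructor <;> linarith
      have h1 := h.sub (hseg _ hs)
      exact bot_not_G hm hjn (by simp only [nx]; push_cast; linarith) h1
    · have : (n : ℝ) = j + 1 := by
        have : n = j + 1 := by omega
        exact_mod_cast this
      have h2 : (n : ℝ) * ψ (co 1 x) < n * 1 := mul_lt_mul_of_pos_left hG2 hnr
      linarith

/-- the central part is relatively closed in `D` minus the walls -/
theorem Inv.cen_closed (h : Inv n L (m + 1) D lab φ ψ P Q) (hm : 2 ≤ m) (hi : i < n) (hj : j < n) :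
    closure (Cen n m i j D φ ψ) ∩ (D \ walls κ D lab) ⊆ Cen n m i j D φ ψ := by
  rintro y ⟨hy, hyD, hyw⟩
  rw [← pt_proj y] at hy hyD hyw
  set x := proj y with hxdef
  set t := y (Fin.last m) with htdef
  have ht := h.t_mem_In hm hi hj hy hyD
  obtain ⟨htop, hregt⟩ := h.isTop_top hm hi hj hy hyD hyw
  obtain ⟨hbot, hregb⟩ := h.isBot_bot hm hi hj hy hyD hyw
  have hseg : ∀ s ∈ In n i j, pt x s ∈ D := by
    intro s hs
    rcases le_total t s with hle | hle
    · exact htop.2.1 s ⟨hle, hs.2⟩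
    · exact hbot.2.1 s ⟨hs.1, hle⟩
  have h1 := h.top_info hm hi hyD htop hregt
  have h2 := h.bot_info hm hj hyD hbot hregb
  have h3 := h.lt_one hm hi hj hyD hseg
  refine ⟨⟨⟨h1.1, h3.1⟩, ⟨h2.1, h3.2⟩, h1.2, h2.2⟩, ht, ?_⟩
  rw [pt_proj] at hyD
  exact hyD

end Pool.Agent.W_MP_cfb63a_co
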