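import Pool.Agent.W_MP_cfb63a_co.Step3

/-!
# The subcell of a central point and its projection
-/

set_option autoImplicit false

open Set

namespace Pool.Agent.W_MP_cfb63a_co

variable {κ : Bool} {n m M : ℕ} {ι : Type} {L : Bool → ℕ → ℕ → ι} {D : Set (Fin (m + 1) → ℝ)}
  {lab : (Fin (m + 1) → ℝ) → Set ι} {φ ψ : ℝ → ℝ} {P Q : ℝ → Set ι} {i j : ℕ}

/-- labels of the processed patches, one step later -/
def nP {ι : Type} (L : Bool → ℕ → ℕ → ι) (s : Bool) (n m i : ℕ) (φ : ℝ → ℝ)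
    (P : ℝ → Set ι) : ℝ → Set ι :=
  fun a => P a ∪ {γ | ∃ i' : ℕ, i' < n ∧ i ≤ i' ∧ γ = L s m i' ∧ (i' : ℝ) ≤ n * φ a}

/-- the subcell of the point `p` -/
def scell (κ : Bool) (D : Set (Fin (m + 1) → ℝ)) (lab : (Fin (m + 1) → ℝ) → Set ι)
    (p : Fin (m + 1) → ℝ) : Set (Fin (m + 1) → ℝ) :=
  connectedComponentIn (D \ walls κ D lab) p

theorem scell_subset (p : Fin (m + 1) → ℝ) : scell κ D lab p ⊆ D \ walls κ D lab :=
  connectedComponentIn_subset _ _

theorem Inv.sub_cen (h : Inv n L (m + 1) D lab φ ψ P Q)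
    (hm : 2 ≤ m) (hi : i < n) (hj : j < n) {p : Fin (m + 1) → ℝ}
    (hp : p ∈ Cen n m i j D φ ψ) : scell κ D lab p ⊆ Cen n m i j D φ ψ := by
  have hpD := h.cen_sub (κ := κ) hm hi hj hp
  refine IsPreconnected.subset_of_closure_inter_subset isPreconnected_connectedComponentIn
    (h.isOpen_cen hi) ⟨p, mem_connectedComponentIn hpD, hp⟩ ?_
  rintro y ⟨hy1, hy2⟩
  exact h.cen_closed hm hi hj ⟨hy1, scell_subset p hy2⟩

theorem Inv.slab_sub (h : Inv n L (m + 1) D lab φ ψ P Q)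
    (hm : 2 ≤ m) (hi : i < n) (hj : j < n) {p : Fin (m + 1) → ℝ}
    (hp : p ∈ Cen n m i j D φ ψ) {S : Set (Fin m → ℝ)}
    (hSG : S ⊆ G n m (nx n i φ) (nx n j ψ)) (hS : IsPreconnected S)
    (hne : (S ∩ proj '' scell κ D lab p).Nonempty) : slab S (In n i j) ⊆ scell κ D lab p := by
  obtain ⟨x, hxS, z, hz, rfl⟩ := hne
  have hzC := h.sub_cen hm hi hj hp hz
  have hz' : z ∈ slab S (In n i j) := ⟨hxS, hzC.2.1⟩
  have hpre : IsPreconnected (slab S (In n i j)) :=
    isPreconnected_slab hS isPreconnected_Ioo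
  have hGsub : slab S (In n i j) ⊆ G n (m + 1) φ ψ := by
    intro y hy
    rw [← pt_proj y]
    exact slab_sub_G hm hi hj (hSG hy.1) hy.2
  have hDsub : slab S (In n i j) ⊆ D := h.sat _ hGsub hpre ⟨z, hz', hzC.2.2⟩
  have hW : slab S (In n i j) ⊆ D \ walls κ D lab := fun y hy =>
    h.cen_sub hm hi hj ⟨hSG hy.1, hy.2, hDsub hy⟩
  rw [scell, connectedComponentIn_eq hz]
  exact hpre.subset_connectedComponentIn hz' hW

theorem Inv.sub_eq (h : Inv n L (m + 1) D lab φ ψ P Q)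
    (hm : 2 ≤ m) (hi : i < n) (hj : j < n) {p : Fin (m + 1) → ℝ}
    (hp : p ∈ Cen n m i j D φ ψ) :
    scell κ D lab p = slab (proj '' scell κ D lab p) (In n i j) := by
  apply Subset.antisymm
  · intro y hy
    exact ⟨⟨y, hy, rfl⟩, (h.sub_cen hm hi hj hp hy).2.1⟩
  · rintro y ⟨⟨z, hz, hzy⟩, hy2⟩
    have hzC := h.sub_cen hm hi hj hp hz
    refine h.slab_sub hm hi hj hp (S := {proj z}) ?_ isPreconnected_singleton ?_ ?_
    · rintro _ rfl; exact hzC.1
    · exact ⟨proj z, rfl, z, hz, rfl⟩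
    · exact ⟨hzy.symm, hy2⟩

/-- the set of central points -/
def Central (m : ℕ) (φ ψ : ℝ → ℝ) : Set (Fin m → ℝ) :=
  {x | 0 < φ (co 0 x) ∧ φ (co 0 x) < 1 ∧ 0 < ψ (co 1 x) ∧ ψ (co 1 x) < 1 ∧
    ∀ k, 2 ≤ k → co k x = 0}

theorem co_comb {m : ℕ} (k : ℕ) (x y : Fin m → ℝ) (a b : ℝ) :
    co k (a • x + b • y) = a * co k x + b * co k y := by
  unfold co
  by_cases h : k < m
  · simp [h]
  · simp [h]

theorem Aff.comb {φ : ℝ → ℝ} (h : Aff φ) {a b : ℝ} (hab : a + b = 1) (x y : ℝ) :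
    φ (a * x + b * y) = a * φ x + b * φ y := by
  obtain ⟨A, B, _, h⟩ := h
  rw [h, h, h]
  linear_combination (-B) * hab

theorem convex_central (m : ℕ) {φ ψ : ℝ → ℝ} (hφ : Aff φ) (hψ : Aff ψ) :
    Convex ℝ (Central m φ ψ) := by
  intro x hx y hy a b ha hb hab
  obtain ⟨x1, x2, x3, x4, x5⟩ := hx
  obtain ⟨y1, y2, y3, y4, y5⟩ := hy
  have key : ∀ u v : ℝ, 0 < u → 0 < v → 0 < a * u + b * v := by
    intro u v hu hv
    rcases ha.eq_or_lt with rfl | ha'
    · have : b = 1 := by linarith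
      subst this; linarith
    · have h1 : 0 < a * u := mul_pos ha' hu
      have h2 : 0 ≤ b * v := mul_nonneg hb hv.le
      linarith
  refine ⟨?_, ?_, ?_, ?_, ?_⟩
  · rw [co_comb, hφ.comb hab]; exact key _ _ x1 y1
  · rw [co_comb, hφ.comb hab]
    have := key (1 - φ (co 0 x)) (1 - φ (co 0 y)) (by linarith) (by linarith)
    nlinarith
  · rw [co_comb, hψ.comb hab]; exact key _ _ x3 y3
  · rw [co_comb, hψ.comb hab]
    have := key (1 - ψ (co 1 x)) (1 - ψ (co 1 y)) (by linarith) (by linarith)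
    nlinarith
  · intro k hk
    rw [co_comb, x5 k hk, y5 k hk]; ring

theorem central_sub_G (n m : ℕ) (φ ψ : ℝ → ℝ) : Central m φ ψ ⊆ G n m φ ψ := by
  rintro x ⟨x1, x2, x3, x4, x5⟩
  exact ⟨⟨x1, x2⟩, ⟨x3, x4⟩, not_hitAny_central n 1 m _ x x5,
    not_hitAny_central n (-1) m _ x x5⟩

theorem Inv.next (h : Inv n L (m + 1) D lab φ ψ P Q) (hL : Inj n M L) (hmM : m + 1 ≤ M)
    (hm : 2 ≤ m) (hi : i < n) (hj : j < n) {p : Fin (m + 1) → ℝ}
    (hp : p ∈ Cen n m i j D φ ψ) (hpc : ∀ k, 2 ≤ k → co k p = 0) :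
    Inv n L m (proj '' scell κ D lab p) (projLab (scell κ D lab p) lab) (nx n i φ) (nx n j ψ)
      (nP L true n m i φ P) (nP L false n m j ψ Q) := by
  have hn : 0 < n := Nat.zero_lt_of_lt hi
  have hi1 := cast_le_sub hi
  have hj1 := cast_le_sub hj
  have h0 := zero_mem_In hi hj
  have hpD := h.cen_sub (κ := κ) hm hi hj hp
  have hpS : p ∈ scell κ D lab p := mem_connectedComponentIn hpD
  have hsat : ∀ S : Set (Fin m → ℝ), S ⊆ G n m (nx n i φ) (nx n j ψ) → IsPreconnected S →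
      (S ∩ proj '' scell κ D lab p).Nonempty → S ⊆ proj '' scell κ D lab p := by
    intro S hSG hS hne x hx
    have := h.slab_sub hm hi hj hp hSG hS hne
    exact ⟨pt x 0, this (pt_mem_slab.2 ⟨hx, h0⟩), proj_pt x 0⟩
  have hτcl : closure (scell κ D lab p) =
      slab (closure (proj '' scell κ D lab p)) (Icc (-((n : ℝ) - j)) ((n : ℝ) - i)) := by
    conv_lhs => rw [h.sub_eq hm hi hj hp]
    rw [closure_slab, In, closure_Ioo (h0.1.trans h0.2).ne]
  have hclD : closure (scell κ D lab p) ⊆ closure D :=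
    closure_mono ((scell_subset p).trans sdiff_subset)
  refine ⟨h.affφ.next hn i, h.affψ.next hn j, ?_, hsat, ?_, ?_, ?_, ?_, ?_, ?_⟩
  · rintro _ ⟨z, hz, rfl⟩
    exact (h.sub_cen hm hi hj hp hz).1
  · intro x x1 x2 x3 x4 x5
    have hx : x ∈ Central m (nx n i φ) (nx n j ψ) := ⟨x1, x2, x3, x4, x5⟩
    refine hsat _ (central_sub_G n m _ _)
      (convex_central m (h.affφ.next hn i) (h.affψ.next hn j)).isPreconnected
      ⟨proj p, ⟨hp.1.1.1, hp.1.1.2, hp.1.2.1.1, hp.1.2.1.2, ?_⟩, p, hpS, rfl⟩ hx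
    intro k hk
    by_cases hkm : k < m
    · rw [co_proj k hkm]; exact hpc k hk
    · rw [co, dif_neg hkm]
  · intro y hy γ
    have hmem : ∀ t, pt y t ∈ closure (scell κ D lab p) ↔ t ∈ Icc (-((n : ℝ) - j)) ((n : ℝ) - i) := by
      intro t
      rw [hτcl, pt_mem_slab]
      exact ⟨fun h => h.2, fun h => ⟨hy, h⟩⟩
    have hco0 : ∀ t, co 0 (pt y t) = co 0 y := fun t => co_pt 0 (by omega) y t
    have hco1 : ∀ t, co 1 (pt y t) = co 1 y := fun t => co_pt 1 (by omega) y t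
    constructor
    · rintro ⟨t, ht, hγ⟩
      have htI := (hmem t).1 ht
      rw [h.hlab _ (hclD ht), hco0, hco1] at hγ
      rcases hγ with h1 | h1 | ⟨c, i', hi', rfl, h1⟩ | ⟨c, i', hi', rfl, h1⟩
      · exact Or.inl (Or.inl h1)
      · exact Or.inr (Or.inl (Or.inl h1))
      · rw [hit_pt] at h1
        rcases h1.2 with h2 | h2
        · left; right
          refine ⟨i', hi', ?_, ?_, h2.2.2⟩
          · have : (i : ℝ) ≤ i' := by linarith [h2.2.1, htI.2]
            exact_mod_cast this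
          · rw [h2.1]
        · right; right; left
          exact ⟨c, i', hi', rfl, hit_mono _ _ _ _ _ _ _ _
            (by simp only [nx]; linarith [htI.2]) h2⟩
      · rw [hit_pt] at h1
        rcases h1.2 with h2 | h2
        · right; left; right
          refine ⟨i', hi', ?_, ?_, h2.2.2⟩
          · have : (j : ℝ) ≤ i' := by linarith [h2.2.1, htI.1]
            exact_mod_cast this
          · rw [h2.1]
        · right; right; right
          exact ⟨c, i', hi', rfl, hit_mono _ _ _ _ _ _ _ _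
            (by simp only [nx]; linarith [htI.1]) h2⟩
    · rintro ((h1 | ⟨i', hi', hii', rfl, h1⟩) | (h1 | ⟨i', hi', hii', rfl, h1⟩) |
        ⟨c, i', hi', rfl, h1⟩ | ⟨c, i', hi', rfl, h1⟩)
      · have ht : (0 : ℝ) ∈ Icc (-((n : ℝ) - j)) ((n : ℝ) - i) := ⟨h0.1.le, h0.2.le⟩
        have ht' := (hmem 0).2 ht
        refine ⟨0, ht', ?_⟩
        rw [h.hlab _ (hclD ht'), hco0, hco1]
        exact Or.inl h1
      · have hi'1 := cast_le_sub hi'
        have hii : (i : ℝ) ≤ i' := by exact_mod_cast hii'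
        have ht : ((n : ℝ) - i') ∈ Icc (-((n : ℝ) - j)) ((n : ℝ) - i) :=
          ⟨by linarith, by linarith⟩
        have ht' := (hmem _).2 ht
        refine ⟨_, ht', ?_⟩
        rw [h.hlab _ (hclD ht'), hco0, hco1]
        right; right; left
        exact ⟨m, i', hi', rfl, (hit_pt _ _ _ _ _ _ _ _).2 ⟨hm, Or.inl ⟨rfl, by ring, h1⟩⟩⟩
      · have ht : (0 : ℝ) ∈ Icc (-((n : ℝ) - j)) ((n : ℝ) - i) := ⟨h0.1.le, h0.2.le⟩
        have ht' := (hmem 0).2 ht
        refine ⟨0, ht', ?_⟩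
        rw [h.hlab _ (hclD ht'), hco0, hco1]
        exact Or.inr (Or.inl h1)
      · have hi'1 := cast_le_sub hi'
        have hii : (j : ℝ) ≤ i' := by exact_mod_cast hii'
        have ht : (-((n : ℝ) - i')) ∈ Icc (-((n : ℝ) - j)) ((n : ℝ) - i) :=
          ⟨by linarith, by linarith⟩
        have ht' := (hmem _).2 ht
        refine ⟨_, ht', ?_⟩
        rw [h.hlab _ (hclD ht'), hco0, hco1]
        right; right; right
        exact ⟨m, i', hi', rfl, (hit_pt _ _ _ _ _ _ _ _).2 ⟨hm, Or.inl ⟨rfl, by ring, h1⟩⟩⟩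
      · have ht : ((n : ℝ) - i) ∈ Icc (-((n : ℝ) - j)) ((n : ℝ) - i) :=
          ⟨by linarith, by linarith⟩
        have ht' := (hmem _).2 ht
        refine ⟨_, ht', ?_⟩
        rw [h.hlab _ (hclD ht'), hco0, hco1]
        right; right; left
        refine ⟨c, i', hi', rfl, (hit_pt _ _ _ _ _ _ _ _).2 ⟨hm, Or.inr ?_⟩⟩
        exact hit_mono _ _ _ _ _ _ _ _ (by simp only [nx]; linarith) h1
      · have ht : (-((n : ℝ) - j)) ∈ Icc (-((n : ℝ) - j)) ((n : ℝ) - i) :=
          ⟨by linarith, by linarith⟩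
        have ht' := (hmem _).2 ht
        refine ⟨_, ht', ?_⟩
        rw [h.hlab _ (hclD ht'), hco0, hco1]
        right; right; right
        refine ⟨c, i', hi', rfl, (hit_pt _ _ _ _ _ _ _ _).2 ⟨hm, Or.inr ?_⟩⟩
        exact hit_mono _ _ _ _ _ _ _ _ (by simp only [nx]; linarith) h1
  · intro a a' ha0 ha1 ha'0 ha'1
    have s1 := strip_of_next hi ha0 ha1
    have s2 := strip_of_next hi ha'0 ha'1
    have hP := h.Pc _ _ s1.1 s1.2 s2.1 s2.2
    ext γ
    simp only [nP, mem_union, mem_ofPred_eq, hP]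
    have e : ∀ i' : ℕ, i ≤ i' → ((i' : ℝ) ≤ n * φ a ↔ (i' : ℝ) ≤ n * φ a') := by
      intro i' hii'
      constructor
      · intro hle
        have := le_of_lt_next ha1 hle
        have : i' = i := by omega
        subst this
        simp only [nx] at ha'0; linarith
      · intro hle
        have := le_of_lt_next ha'1 hle
        have : i' = i := by omega
        subst this
        simp only [nx] at ha0; linarith
    constructor
    · rintro (h1 | ⟨i', h1, h2, h3, h4⟩)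
      · exact Or.inl h1
      · exact Or.inr ⟨i', h1, h2, h3, (e i' h2).1 h4⟩
    · rintro (h1 | ⟨i', h1, h2, h3, h4⟩)
      · exact Or.inl h1
      · exact Or.inr ⟨i', h1, h2, h3, (e i' h2).2 h4⟩
  · intro a a' ha0 ha1 ha'0 ha'1
    have s1 := strip_of_next hj ha0 ha1
    have s2 := strip_of_next hj ha'0 ha'1
    have hQ := h.Qc _ _ s1.1 s1.2 s2.1 s2.2
    ext γ
    simp only [nP, mem_union, mem_ofPred_eq, hQ]
    have e : ∀ i' : ℕ, j ≤ i' → ((i' : ℝ) ≤ n * ψ a ↔ (i' : ℝ) ≤ n * ψ a') := by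
      intro i' hii'
      constructor
      · intro hle
        have := le_of_lt_next ha1 hle
        have : i' = j := by omega
        subst this
        simp only [nx] at ha'0; linarith
      · intro hle
        have := le_of_lt_next ha'1 hle
        have : i' = j := by omega
        subst this
        simp only [nx] at ha0; linarith
    constructor
    · rintro (h1 | ⟨i', h1, h2, h3, h4⟩)
      · exact Or.inl h1
      · exact Or.inr ⟨i', h1, h2, h3, (e i' h2).1 h4⟩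
    · rintro (h1 | ⟨i', h1, h2, h3, h4⟩)
      · exact Or.inl h1
      · exact Or.inr ⟨i', h1, h2, h3, (e i' h2).2 h4⟩
  · rintro a s c i'' hc hcm hi'' (h1 | ⟨i', hi', _, h2, _⟩)
    · exact h.Pa _ _ _ _ hc (by omega) hi'' h1
    · have := hL _ _ _ _ _ _ hc (by omega) hi'' hm (by omega) hi' h2
      omega
  · rintro a s c i'' hc hcm hi'' (h1 | ⟨i', hi', _, h2, _⟩)
    · exact h.Qa _ _ _ _ hc (by omega) hi'' h1
    · have := hL _ _ _ _ _ _ hc (by omega) hi'' hm (by omega) hi' h2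
      omega

end Pool.Agent.W_MP_cfb63a_co
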